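import Pool.Agent.Work.MP_7da6af_nt.Cn.Near
import Pool.Agent.Work.MP_7da6af_nt.Gen.Cluster

/-! # Integer polynomials which are small on clusters -/

set_option autoImplicit false

namespace Pool.Agent.Work.MP_7da6af_nt.Cn

open Polynomial

namespace Clu

open _root_.Pool.Agent.Work.MP_7da6af_nt.Clu

variable {n : ℕ} {k : Type} [Field k]

theorem continuous_e3 (σ : k →+* ℂ) (P : PN n k) : Continuous fun t : Fin n → ℂ => e3 σ t P := by
  induction P using MvPolynomial.induction_on with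
  | C a =>
    have : (fun t : Fin n → ℂ => e3 σ t (MvPolynomial.C a)) = fun _ => σ a := by
      funext t
      exact e3_C σ t a
    rw [this]
    exact continuous_const
  | add P Q hP hQ =>
    have : (fun t : Fin n → ℂ => e3 σ t (P + Q)) = fun t => e3 σ t P + e3 σ t Q := by
      funext t
      exact e3_add σ t P Q
    rw [this]
    exact hP.add hQ
  | mul_X P i hP =>
    have : (fun t : Fin n → ℂ => e3 σ t (P * MvPolynomial.X i)) = fun t => e3 σ t P * t i := by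
      funext t
      rw [e3_mul, e3_X]
    rw [this]
    exact hP.mul (continuous_apply i)

/-- the points with bounded logarithmic vector -/
def KS (I : Ideal (PN n k)) (σ : k →+* ℂ) (S : ℝ) : Set (Fin n → ℂ) :=
  (⋂ f ∈ I, {t | e3 σ t f = 0}) ∩ ⋂ l, ({t | ‖t l‖ ≤ Real.exp S} ∩ {t | Real.exp (-S) ≤ ‖t l‖})

theorem isCompact_KS (I : Ideal (PN n k)) (σ : k →+* ℂ) (S : ℝ) : IsCompact (KS I σ S) := by
  have h1 : IsClosed (KS I σ S) := by
    refine IsClosed.inter ?_ (isClosed_iInter fun l => ?_)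
    · exact isClosed_biInter fun f _ => isClosed_eq (continuous_e3 σ f) continuous_const
    · exact (isClosed_le (continuous_apply l).norm continuous_const).inter
        (isClosed_le continuous_const (continuous_apply l).norm)
  refine (isCompact_closedBall (0 : Fin n → ℂ) (Real.exp S)).of_isClosed_subset h1 fun t ht => ?_
  rw [mem_closedBall_zero_iff, pi_norm_le_iff_of_nonneg (Real.exp_pos S).le]
  intro l
  have := ht.2
  rw [Set.mem_iInter] at this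
  exact (this l).1

theorem mem_KS_of {I : Ideal (PN n k)} {σ : k →+* ℂ} {S : ℝ} {t : Fin n → ℂ}
    (ht : On I σ t) (h : ∀ l, |L3 t l| ≤ S) : t ∈ KS I σ S := by
  refine ⟨?_, Set.mem_iInter.2 fun l => ?_⟩
  · rw [Set.mem_iInter₂]
    exact fun f hf => ht.2 f hf
  · have hn : 0 < ‖t l‖ := norm_pos_iff.2 (ht.1 l)
    have h1 := h l
    unfold L3 at h1
    rw [abs_le] at h1
    exact ⟨(Real.log_le_iff_le_exp hn).1 h1.2, (Real.le_log_iff_exp_le hn).1 h1.1⟩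

theorem of_mem_KS {I : Ideal (PN n k)} {σ : k →+* ℂ} {S : ℝ} {t : Fin n → ℂ} (ht : t ∈ KS I σ S) :
    On I σ t ∧ ∀ l, |L3 t l| ≤ S := by
  have h1 := ht.1
  have h2 := ht.2
  rw [Set.mem_iInter₂] at h1
  rw [Set.mem_iInter] at h2
  have hpos : ∀ l, 0 < ‖t l‖ := fun l => lt_of_lt_of_le (Real.exp_pos _) (h2 l).2
  refine ⟨⟨fun l => norm_pos_iff.1 (hpos l), fun f hf => h1 f hf⟩, fun l => ?_⟩
  unfold L3
  rw [abs_le]
  exact ⟨(Real.le_log_iff_exp_le (hpos l)).2 (h2 l).2,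
    (Real.log_le_iff_le_exp (hpos l)).2 (h2 l).1⟩

theorem continuousOn_L3 (I : Ideal (PN n k)) (σ : k →+* ℂ) (S : ℝ) (l : Fin n) :
    ContinuousOn (fun t : Fin n → ℂ => L3 t l) (KS I σ S) := by
  have h : ContinuousOn (fun t : Fin n → ℂ => ‖t l‖) (KS I σ S) :=
    (continuous_apply l).norm.continuousOn
  exact h.log fun t ht => (norm_pos_iff.2 ((of_mem_KS ht).1.1 l)).ne'

/-- orthonormal pairs are linearly independent -/
theorem li_of_DD {d : (Fin n → ℝ) × (Fin 3 → Fin n → ℝ)} (hd : d ∈ DD n) (j : Fin 3) :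
    LinearIndependent ℝ ![d.1, d.2 j] := by
  rw [LinearIndependent.pair_iff]
  intro a b hab
  have h1 : ∀ l, a * d.1 l + b * d.2 j l = 0 := fun l => by
    have := congrFun hab l
    simpa using this
  have h2 : a * ∑ l, d.1 l ^ 2 + b * ∑ l, d.1 l * d.2 j l = 0 := by
    rw [Finset.mul_sum, Finset.mul_sum, ← Finset.sum_add_distrib]
    refine Finset.sum_eq_zero fun l _ => ?_
    have := h1 l
    calc a * d.1 l ^ 2 + b * (d.1 l * d.2 j l) = d.1 l * (a * d.1 l + b * d.2 j l) := by ring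
      _ = 0 := by rw [this, mul_zero]
  have h3 : a * ∑ l, d.1 l * d.2 j l + b * ∑ l, d.2 j l ^ 2 = 0 := by
    rw [Finset.mul_sum, Finset.mul_sum, ← Finset.sum_add_distrib]
    refine Finset.sum_eq_zero fun l _ => ?_
    have := h1 l
    calc a * (d.1 l * d.2 j l) + b * d.2 j l ^ 2 = d.2 j l * (a * d.1 l + b * d.2 j l) := by ring
      _ = 0 := by rw [this, mul_zero]
  rw [hd.1, hd.2.2 j, mul_one, mul_zero, add_zero] at h2
  rw [hd.2.1 j, hd.2.2 j, mul_one, mul_zero, zero_add] at h3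
  exact ⟨h2, h3⟩

theorem isCompact_DD (n : ℕ) : IsCompact (DD n) := by
  have h1 : IsClosed (DD n) := by
    have e1 : DD n = {d | ∑ l, d.1 l ^ 2 = 1} ∩ ((⋂ j, {d | ∑ l, d.2 j l ^ 2 = 1}) ∩
        ⋂ j, {d | ∑ l, d.1 l * d.2 j l = 0}) := by
      ext d
      simp only [DD, Set.mem_ofPred_eq, Set.mem_inter_iff, Set.mem_iInter]
    rw [e1]
    refine IsClosed.inter (isClosed_eq (by fun_prop) continuous_const)
      (IsClosed.inter (isClosed_iInter fun j => isClosed_eq (by fun_prop) continuous_const)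
        (isClosed_iInter fun j => isClosed_eq (by fun_prop) continuous_const))
  refine (isCompact_closedBall (0 : (Fin n → ℝ) × (Fin 3 → Fin n → ℝ)) 1).of_isClosed_subset h1
    fun d hd => ?_
  rw [mem_closedBall_zero_iff, Prod.norm_def, max_le_iff]
  have h2 : ∀ a : Fin n → ℝ, ∑ l, a l ^ 2 = 1 → ‖a‖ ≤ 1 := by
    intro a ha
    rw [pi_norm_le_iff_of_nonneg zero_le_one]
    intro l
    rw [Real.norm_eq_abs]
    exact abs_le_of_sq zero_le_one (by rw [one_pow]; exact ha) l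
  refine ⟨h2 _ hd.1, ?_⟩
  rw [pi_norm_le_iff_of_nonneg zero_le_one]
  exact fun j => h2 _ (hd.2.1 j)

/-- the polynomial is small near the subspaces -/
theorem near_subs [NeZero n] (I : Ideal (PN n k)) (σ : k →+* ℂ) (S : ℝ)
    (d0 : (Fin n → ℝ) × (Fin 3 → Fin n → ℝ))
    (Q : ℤ[X]) (η : ℝ) (hη : 0 < η) (hQ : ∀ z ∈ KS I σ S, ∀ j : Fin 3,
      ∑ l, d0.1 l * L3 z l = 0 → ∑ l, d0.2 j l * L3 z l = 0 → ‖aeval (z 0) Q‖ ≤ η) :
    ∃ r : ℝ, 0 < r ∧ ∀ r' : ℝ, 0 < r' → r' ≤ r → ∀ d ∈ DD n, dist d d0 < r' →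
      ∀ z ∈ KS I σ S, ∀ j : Fin 3, |∑ l, d.1 l * L3 z l| ≤ r' / 2 →
        |∑ l, d.2 j l * L3 z l| ≤ r' / 2 → ‖aeval (z 0) Q‖ ≤ 2 * η := by
  let X0 : Set ((((Fin n → ℝ) × (Fin 3 → Fin n → ℝ)) × ℝ) × (Fin n → ℂ)) :=
    (DD n ×ˢ Set.Icc 0 1) ×ˢ KS I σ S
  have hX0 : IsCompact X0 :=
    ((isCompact_DD n).prod isCompact_Icc).prod (isCompact_KS I σ S)
  let f : ((((Fin n → ℝ) × (Fin 3 → Fin n → ℝ)) × ℝ) × (Fin n → ℂ)) → ℝ := fun x =>
    |∑ l, x.1.1.1 l * L3 x.2 l| - x.1.2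
  let g : Fin 3 → ((((Fin n → ℝ) × (Fin 3 → Fin n → ℝ)) × ℝ) × (Fin n → ℂ)) → ℝ := fun j x =>
    |∑ l, x.1.1.2 j l * L3 x.2 l| - x.1.2
  have hL : ∀ l : Fin n, ContinuousOn
      (fun x : (((Fin n → ℝ) × (Fin 3 → Fin n → ℝ)) × ℝ) × (Fin n → ℂ) => L3 x.2 l) X0 := by
    intro l
    refine (continuousOn_L3 I σ S l).comp (Continuous.continuousOn (by fun_prop)) ?_
    intro x hx
    exact hx.2
  have hr : ContinuousOn (fun x : (((Fin n → ℝ) × (Fin 3 → Fin n → ℝ)) × ℝ) × (Fin n → ℂ) =>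
      x.1.2) X0 := Continuous.continuousOn (by fun_prop)
  have hf : ContinuousOn f X0 := by
    refine ContinuousOn.sub (ContinuousOn.abs ?_) hr
    refine continuousOn_finsetSum _ fun l _ => ContinuousOn.mul ?_ (hL l)
    exact Continuous.continuousOn (by fun_prop)
  have hg : ∀ j, ContinuousOn (g j) X0 := by
    intro j
    refine ContinuousOn.sub (ContinuousOn.abs ?_) hr
    refine continuousOn_finsetSum _ fun l _ => ContinuousOn.mul ?_ (hL l)
    exact Continuous.continuousOn (by fun_prop)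
  let Cj : Fin 3 → Set ((((Fin n → ℝ) × (Fin 3 → Fin n → ℝ)) × ℝ) × (Fin n → ℂ)) := fun j =>
    ((X0 ∩ f ⁻¹' Set.Iic 0) ∩ (X0 ∩ g j ⁻¹' Set.Iic 0)) ∩ {x | 2 * η ≤ ‖aeval (x.2 0) Q‖}
  have hCj : ∀ j, IsCompact (Cj j) := by
    intro j
    have h1 : IsClosed (Cj j) := by
      refine IsClosed.inter (IsClosed.inter
        (hf.preimage_isClosed_of_isClosed hX0.isClosed isClosed_Iic)
        ((hg j).preimage_isClosed_of_isClosed hX0.isClosed isClosed_Iic)) ?_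
      exact isClosed_le continuous_const
        ((continuous_aeval_int Q).comp ((continuous_apply 0).comp continuous_snd)).norm
    exact hX0.of_isClosed_subset h1 fun x hx => hx.1.1.1
  let U : Set (((Fin n → ℝ) × (Fin 3 → Fin n → ℝ)) × ℝ) := (⋃ j, Prod.fst '' Cj j)ᶜ
  have hU : IsOpen U := by
    have hcl : IsClosed (⋃ j, Prod.fst '' Cj j) :=
      isClosed_iUnion_of_finite fun j => ((hCj j).image continuous_fst).isClosed
    exact hcl.isOpen_compl
  have h0 : (d0, (0 : ℝ)) ∈ U := by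
    intro hmem
    rw [Set.mem_iUnion] at hmem
    obtain ⟨j, x, hx, hx0⟩ := hmem
    have hx1 : x.1.1 = d0 := by rw [hx0]
    have hx2 : x.1.2 = 0 := by rw [hx0]
    have hz := hx.1.1.1.2
    have e1 := hx.1.1.2
    have e2 := hx.1.2.2
    rw [Set.mem_preimage, Set.mem_Iic] at e1 e2
    simp only [f, g] at e1 e2
    rw [hx1, hx2, sub_zero] at e1 e2
    have e3' := abs_eq_zero.1 (le_antisymm e1 (abs_nonneg _))
    have e4 := abs_eq_zero.1 (le_antisymm e2 (abs_nonneg _))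
    have h2 := hQ _ hz j e3' e4
    have h3 : 2 * η ≤ ‖aeval (x.2 0) Q‖ := hx.2
    linarith
  obtain ⟨r, hr, hball⟩ := Metric.isOpen_iff.1 hU _ h0
  refine ⟨min r 1, by positivity, fun r' hr' hr'le d hd hdist z hz j hl1 hl2 => ?_⟩
  by_contra hcon
  push Not at hcon
  have hmr := min_le_left r 1
  have hm1 := min_le_right r 1
  have hmem : ((d, r' / 2), z) ∈ Cj j := by
    have hX : ((d, r' / 2), z) ∈ X0 := ⟨⟨hd, by positivity, by linarith⟩, hz⟩
    refine ⟨⟨⟨hX, ?_⟩, hX, ?_⟩, hcon.le⟩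
    · rw [Set.mem_preimage, Set.mem_Iic]
      simp only [f]
      linarith
    · rw [Set.mem_preimage, Set.mem_Iic]
      simp only [g]
      linarith
  have hnot : (d, r' / 2) ∉ ⋃ j, Prod.fst '' Cj j := by
    refine hball ?_
    rw [Metric.mem_ball, Prod.dist_eq, max_lt_iff]
    refine ⟨by simp only; linarith, ?_⟩
    rw [Real.dist_eq, sub_zero, abs_of_pos (by positivity)]
    linarith
  exact hnot (Set.mem_iUnion.2 ⟨j, _, hmem, rfl⟩)

end Clu

open _root_.Pool.Agent.Work.MP_7da6af_nt.Cn.Clu _root_.Pool.Agent.Work.MP_7da6af_nt.Clu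

theorem cluster {n : ℕ} [NeZero n] {k : Type} [Field k] [NumberField k] (I : Ideal (PN n k))
    (hstar : ∀ σ : k →+* ℂ, StarN I σ) (B : ℝ) (hB : 0 ≤ B) :
    ∃ (ε : ℝ) (QQ : Finset ℤ[X]), 0 < ε ∧ (∀ Q ∈ QQ, Q ≠ 0) ∧
      ∀ d ∈ DD n,
      ∀ (ι : Type) [Fintype ι] (m : ι → ℝ) (t : ι → Fin n → ℂ) (σ : ι → (k →+* ℂ)),
        (∀ i, 0 ≤ m i) → ∑ i, m i = 1 → (∀ i, On I (σ i) (t i)) →
        (∑ i, m i * ∑ l, |L3 (t i) l| ≤ B) →
        (∃ bad : Finset ι, ∑ i ∈ bad, m i ≤ 1 / 10 ∧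
          ∀ i ∉ bad, ∃ j : Fin 3, |∑ l, d.1 l * L3 (t i) l| ≤ ε ∧
            |∑ l, d.2 j l * L3 (t i) l| ≤ ε) →
        ∃ Q ∈ QQ, (∃ i, aeval (t i 0) Q = 0) ∨
          ∑ i, m i * Real.log ‖aeval (t i 0) Q‖ < -(Q.natDegree * B) := by
  classical
  set S : ℝ := 10 * B + 1 with hS
  -- the polynomial for each point of `DD`
  have hloc : ∀ d0 : DD n, ∃ (Q : ℤ[X]) (r : ℝ), Q ≠ 0 ∧ 0 < r ∧
      ∀ d ∈ DD n, dist d d0 < r →
      ∀ (ι : Type) [Fintype ι] (m : ι → ℝ) (t : ι → Fin n → ℂ) (σ : ι → (k →+* ℂ)),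
        (∀ i, 0 ≤ m i) → ∑ i, m i = 1 → (∀ i, On I (σ i) (t i)) →
        (∑ i, m i * ∑ l, |L3 (t i) l| ≤ B) →
        (∃ bad : Finset ι, ∑ i ∈ bad, m i ≤ 1 / 10 ∧
          ∀ i ∉ bad, ∃ j : Fin 3, |∑ l, d.1 l * L3 (t i) l| ≤ r / 2 ∧
            |∑ l, d.2 j l * L3 (t i) l| ≤ r / 2) →
        (∃ i, aeval (t i 0) Q = 0) ∨
          ∑ i, m i * Real.log ‖aeval (t i 0) Q‖ < -(Q.natDegree * B) := by
    rintro ⟨d0, hd0⟩
    let Z : Set ℂ := (fun t : Fin n → ℂ => t 0) '' ⋃ σ : k →+* ℂ, ⋃ j : Fin 3,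
      {t : Fin n → ℂ | On I σ t ∧ (∀ l, |L3 t l| ≤ S) ∧ ∑ l, d0.1 l * L3 t l = 0 ∧
        ∑ l, d0.2 j l * L3 t l = 0}
    have hZ : Z.Finite := by
      refine Set.Finite.image _ ?_
      exact Set.finite_iUnion fun σ => Set.finite_iUnion fun j =>
        hstar σ d0.1 (d0.2 j) (li_of_DD hd0 j) _
    obtain ⟨N, _, hNM⟩ := siegelPoly Z hZ
    obtain ⟨Q, η, T, hQ0, hQN, hη, hT1, hT, hQZ, hM⟩ :=
      hNM (2 * (1 + Real.log (N + 1) + 2 * (N * B)) + 2)
    have hnear := fun σ : k →+* ℂ => near_subs I σ S d0 Q η hη (by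
      intro z hz j e1 e2
      refine hQZ (z 0) ?_
      obtain ⟨h1, h2⟩ := of_mem_KS hz
      exact ⟨z, Set.mem_iUnion.2 ⟨σ, Set.mem_iUnion.2 ⟨j, h1, h2, e1, e2⟩⟩, rfl⟩)
    choose r hr hnear using hnear
    obtain ⟨r0, hr0, hr0le⟩ := exists_pos_le (Finset.univ : Finset (k →+* ℂ)) r (fun σ _ => hr σ)
    refine ⟨Q, r0, hQ0, hr0, ?_⟩
    intro d hd hdist ι _ m t σ hm hm1 ht hsum hbad
    obtain ⟨bad, hb1, hb2⟩ := hbad
    by_cases hne : ∃ i, aeval (t i 0) Q = 0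
    · exact Or.inl hne
    · refine Or.inr ?_
      push Not at hne
      have hle : ∀ i, max 0 (Real.log ‖t i 0‖) ≤ ∑ l, |L3 (t i) l| := by
        intro i
        have h1 : max 0 (Real.log ‖t i 0‖) ≤ |L3 (t i) 0| :=
          max_le (abs_nonneg _) (le_abs_self _)
        exact h1.trans (Finset.single_le_sum (f := fun l => |L3 (t i) l|)
          (fun _ _ => abs_nonneg _) (Finset.mem_univ 0))
      have heq : ∀ i, max 0 (Real.log ‖t i 0‖) +
          (∑ l, |L3 (t i) l| - max 0 (Real.log ‖t i 0‖)) = ∑ l, |L3 (t i) l| := by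
        intro i
        ring
      refine Gen.Clu.average hB hQN hη hT1 hT hM le_rfl ι m (fun i => t i 0)
        (fun i => ∑ l, |L3 (t i) l| - max 0 (Real.log ‖t i 0‖))
        (fun i => sub_nonneg.2 (hle i)) hm hm1 ?_ bad hb1 ?_ hne
      · rw [Finset.sum_congr rfl fun i _ => by rw [heq i]]
        exact hsum
      intro i hi hw
      rw [heq i] at hw
      obtain ⟨j, h1, h2⟩ := hb2 i hi
      have hl : ∀ l, |L3 (t i) l| ≤ S := by
        intro l
        have h3 : |L3 (t i) l| ≤ ∑ l, |L3 (t i) l| :=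
          Finset.single_le_sum (f := fun l => |L3 (t i) l|) (fun _ _ => abs_nonneg _)
            (Finset.mem_univ l)
        linarith
      exact hnear (σ i) r0 hr0 (hr0le _ (Finset.mem_univ _)) d hd hdist (t i)
        (mem_KS_of (ht i) hl) j h1 h2
  choose Q r hQ0 hr hmain using hloc
  obtain ⟨T, hT⟩ := (isCompact_DD n).elim_nhds_subcover'
    (fun d0 hd0 => Metric.ball d0 (r ⟨d0, hd0⟩)) (fun d0 hd0 => Metric.ball_mem_nhds _ (hr _))
  obtain ⟨ε, hε, hεt⟩ := exists_pos_le T (fun d0 => r d0 / 2) (fun d0 _ => half_pos (hr d0))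
  refine ⟨ε, T.image Q, hε, ?_, ?_⟩
  · intro P hP
    rw [Finset.mem_image] at hP
    obtain ⟨d0, _, rfl⟩ := hP
    exact hQ0 d0
  · intro d hd ι _ m t σ hm hm1 ht hsum hbad
    have h1 := hT hd
    rw [Set.mem_iUnion₂] at h1
    obtain ⟨d0, hd0, hball⟩ := h1
    rw [Metric.mem_ball] at hball
    refine ⟨Q d0, Finset.mem_image_of_mem Q hd0, ?_⟩
    refine hmain d0 d hd hball ι m t σ hm hm1 ht hsum ?_
    obtain ⟨bad, hb1, hb2⟩ := hbad
    refine ⟨bad, hb1, fun i hi => ?_⟩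
    obtain ⟨j, h1, h2⟩ := hb2 i hi
    exact ⟨j, h1.trans (hεt d0 hd0), h2.trans (hεt d0 hd0)⟩

end Pool.Agent.Work.MP_7da6af_nt.Cn
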