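import Pool.Agent.Work.MP_7da6af_nt.Gen.Poly

/-! # Curves in tori of any dimension -/

set_option autoImplicit false

namespace Pool.Agent.Work.MP_7da6af_nt.Cn

open NumberField Polynomial

/-- polynomials in `n` variables -/
abbrev PN (n : ℕ) (k : Type) [Field k] : Type := MvPolynomial (Fin n) k

section

variable {n : ℕ} {k : Type} [Field k]

/-- the value of a polynomial -/
noncomputable def e3 {K : Type} [Field K] (φ : k →+* K) (t : Fin n → K) (f : PN n k) : K :=
  MvPolynomial.eval₂ φ t f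

/-- `t` is a point of the curve with the ideal `I` -/
def On (I : Ideal (PN n k)) {K : Type} [Field K] (φ : k →+* K) (t : Fin n → K) : Prop :=
  (∀ l, t l ≠ 0) ∧ ∀ f ∈ I, e3 φ t f = 0

/-- the logarithmic vector -/
noncomputable def L3 (t : Fin n → ℂ) : Fin n → ℝ := fun l => Real.log ‖t l‖

/-- every linear subspace of codimension two meets bounded parts of the amoeba of the curve in the
images of finitely many points -/
def StarN (I : Ideal (PN n k)) (σ : k →+* ℂ) : Prop :=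
  ∀ p q : Fin n → ℝ, LinearIndependent ℝ ![p, q] → ∀ S : ℝ,
    {t : Fin n → ℂ | On I σ t ∧ (∀ l, |L3 t l| ≤ S) ∧ ∑ l, p l * L3 t l = 0 ∧
      ∑ l, q l * L3 t l = 0}.Finite

/-- For every `m ≠ 0` the coordinates satisfy an equation over `k[t ^ m]`, whose coefficients are
coprime and have degrees at most `b`, with `b` independent of `m`. -/
def Rels (I : Ideal (PN n k)) : Prop := ∃ b : ℕ, ∀ m : Fin n → ℤ, m ≠ 0 → ∀ l : Fin n,
  ∃ (d : ℕ) (a : ℕ → k[X]), (∀ i, (a i).natDegree ≤ b) ∧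
    (∃ c : ℕ → k[X], ∑ i ∈ Finset.range (d + 1), c i * a i = 1) ∧
    ∀ (K : Type) [Field K] (φ : k →+* K) (t : Fin n → K), On I φ t →
      ∑ i ∈ Finset.range (d + 1), Gen.ev φ (mon t m) (a i) * t l ^ i = 0

end

variable {n : ℕ} {k : Type} [Field k] [NumberField k]

/-- points of the curve with one real relation have bounded height -/
def C2 (I : Ideal (PN n k)) : Prop := ∃ B : ℝ, 0 ≤ B ∧
  ∀ (K : Type) [Field K] [NumberField K] (φ : k →+* K) (t : Fin n → K), On I φ t →
    ∀ κ : Fin n → ℝ, κ ≠ 0 → (∀ p : Pl K, ∑ j, κ j * lg p (t j) = 0) →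
      ∀ j, hh (t j) ≤ B * dg K

/-- the data of a surface -/
structure Dat (n : ℕ) (k : Type) [Field k] [NumberField k] where
  I : Ideal (PN n k)
  u : PN n k
  v : PN n k
  w : PN n k
  c2 : C2 I
  star : ∀ σ : k →+* ℂ, StarN I σ
  rels : Rels I

/-- the points which are studied -/
structure Pt (D : Dat n k) (K : Type) [Field K] [NumberField K] (φ : k →+* K) (x z : K)
    (t : Fin n → K) : Prop where
  hx : x ≠ 0
  hz : z ≠ 0
  on : On D.I φ t
  hu : e3 φ t D.u ≠ 0
  hv : e3 φ t D.v ≠ 0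
  hw : e3 φ t D.w ≠ 0
  heq : e3 φ t D.u * x + e3 φ t D.v * z = e3 φ t D.w
  rel : ∃ κ : Fin n → ℤ, κ ≠ 0 ∧ mon t κ = 1
  dep : ∃ m : ℕ, 0 < m ∧ (∃ c : Fin n → ℤ, x ^ m = mon t c) ∧
    ∃ d : Fin n → ℤ, z ^ m = mon t d

end Pool.Agent.Work.MP_7da6af_nt.Cn
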