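import Pool.Agent.Work.MP_7da6af_nt.Cn.Rel
import Pool.Agent.Work.MP_7da6af_nt.AnomHt

/-! # Descent of a curve to a number field -/

set_option autoImplicit false

namespace Pool.Agent.Work.MP_7da6af_nt.Cn

section

variable {k L : Type} [Field k] [Field L] [Algebra k L] {s : Type}

/-- a linear functional applied to the coefficients -/
noncomputable def lam (s : Type) (f : L →ₗ[k] k) (p : MvPolynomial s L) : MvPolynomial s k :=
  ∑ n ∈ p.support, MvPolynomial.monomial n (f (MvPolynomial.coeff n p))

theorem coeff_lam (f : L →ₗ[k] k) (p : MvPolynomial s L) (n : s →₀ ℕ) :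
    MvPolynomial.coeff n (lam s f p) = f (MvPolynomial.coeff n p) := by
  classical
  unfold lam
  rw [MvPolynomial.coeff_sum]
  simp only [MvPolynomial.coeff_monomial]
  rw [Finset.sum_ite_eq']
  split_ifs with h
  · rfl
  · rw [MvPolynomial.notMem_support_iff] at h
    rw [h, map_zero]

theorem lam_add (f : L →ₗ[k] k) (p q : MvPolynomial s L) :
    lam s f (p + q) = lam s f p + lam s f q := by
  ext n
  rw [coeff_lam, MvPolynomial.coeff_add, map_add, MvPolynomial.coeff_add, coeff_lam, coeff_lam]

theorem lam_zero (f : L →ₗ[k] k) : lam s f 0 = 0 := by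
  ext n
  rw [coeff_lam, MvPolynomial.coeff_zero, map_zero, MvPolynomial.coeff_zero]

theorem lam_mul (f : L →ₗ[k] k) (a : MvPolynomial s k) (p : MvPolynomial s L) :
    lam s f (p * MvPolynomial.map (algebraMap k L) a) = lam s f p * a := by
  classical
  ext n
  rw [coeff_lam, MvPolynomial.coeff_mul, MvPolynomial.coeff_mul, map_sum]
  refine Finset.sum_congr rfl fun x _ => ?_
  rw [MvPolynomial.coeff_map, coeff_lam, mul_comm, ← Algebra.smul_def, f.map_smul, smul_eq_mul,
    mul_comm]

theorem lam_C (f : L →ₗ[k] k) (c : L) :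
    lam s f (MvPolynomial.C c) = MvPolynomial.C (f c) := by
  classical
  ext n
  rw [coeff_lam, MvPolynomial.coeff_C, MvPolynomial.coeff_C]
  split_ifs
  · rfl
  · exact map_zero f

theorem lam_mem (f : L →ₗ[k] k) (I₀ : Ideal (MvPolynomial s k)) (p : MvPolynomial s L)
    (hp : p ∈ I₀.map (MvPolynomial.map (algebraMap k L))) : lam s f p ∈ I₀ := by
  have key : ∀ q : MvPolynomial s L, lam s f (q * p) ∈ I₀ := by
    rw [Ideal.map, Ideal.span] at hp
    induction hp using Submodule.span_induction with
    | mem x hx =>
      intro q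
      obtain ⟨a, ha, rfl⟩ := hx
      rw [lam_mul]
      exact I₀.mul_mem_left _ ha
    | zero =>
      intro q
      rw [mul_zero, lam_zero]
      exact I₀.zero_mem
    | add x y _ _ hx hy =>
      intro q
      rw [mul_add, lam_add]
      exact I₀.add_mem (hx q) (hy q)
    | smul a x _ hx =>
      intro q
      rw [smul_eq_mul, ← mul_assoc]
      exact hx _
  have := key 1
  rwa [one_mul] at this

/-- the functional commutes with substitution of polynomials over the small field -/
theorem lam_aeval {r : Type} (f : L →ₗ[k] k) (g : r → MvPolynomial s k) (R : MvPolynomial r L) :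
    lam s f (MvPolynomial.aeval (fun i => MvPolynomial.map (algebraMap k L) (g i)) R) =
      MvPolynomial.aeval g (lam r f R) := by
  induction R using MvPolynomial.induction_on' with
  | monomial n c =>
    have h1 : MvPolynomial.aeval (fun i => MvPolynomial.map (algebraMap k L) (g i))
        (MvPolynomial.monomial n c : MvPolynomial r L) = MvPolynomial.C c *
          MvPolynomial.map (algebraMap k L) (n.prod fun i e => g i ^ e) := by
      rw [MvPolynomial.aeval_monomial, MvPolynomial.algebraMap_eq, Finsupp.prod, Finsupp.prod,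
        map_prod]
      simp only [map_pow]
    have h2 : (MvPolynomial.monomial n c : MvPolynomial r L) = MvPolynomial.C c *
        MvPolynomial.map (algebraMap k L) (MvPolynomial.monomial n 1) := by
      rw [MvPolynomial.map_monomial, map_one, MvPolynomial.C_mul_monomial, mul_one]
    rw [h1, lam_mul, lam_C]
    rw [h2, lam_mul, lam_C, map_mul, MvPolynomial.aeval_monomial, map_one, one_mul,
      MvPolynomial.aeval_C, MvPolynomial.algebraMap_eq]
  | add p q hp hq => rw [map_add, lam_add, hp, hq, lam_add, map_add]

end

/-- a functional which does not vanish at a given element -/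
theorem exists_functional {k L : Type} [Field k] [Field L] [Algebra k L] (r : L) (hr : r ≠ 0) :
    ∃ f : L →ₗ[k] k, f r ≠ 0 := by
  obtain ⟨g, hg⟩ := LinearMap.exists_leftInverse_of_injective (LinearMap.toSpanSingleton k L r)
    (LinearMap.ker_toSpanSingleton k hr)
  refine ⟨g, ?_⟩
  have := congrArg (fun h : k →ₗ[k] k => h 1) hg
  simp only [LinearMap.comp_apply, LinearMap.toSpanSingleton_apply, one_smul,
    LinearMap.id_apply] at this
  rw [this]
  exact one_ne_zero

theorem map_mp {n : ℕ} {k L : Type} [Field k] [Field L] (ι : k →+* L) (m : Fin n → ℤ) :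
    MvPolynomial.map ι (mp k m) = mp L m := by
  unfold mp
  rw [map_prod]
  simp only [map_pow, MvPolynomial.map_X]

/-- descent of the conditions -/
theorem isCurve_comap {n : ℕ} {k L : Type} [Field k] [Field L] [Algebra k L] (I : Ideal (PN n L))
    (h : IsCurve I) (hI : I = (I.comap (MvPolynomial.map (algebraMap k L))).map
      (MvPolynomial.map (algebraMap k L))) :
    IsCurve (I.comap (MvPolynomial.map (algebraMap k L)) : Ideal (PN n k)) := by
  refine ⟨?_, ?_, ?_, ?_⟩
  · have := h.prime
    exact Ideal.comap_isPrime _ _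
  · intro l hl
    rw [Ideal.mem_comap, MvPolynomial.map_X] at hl
    exact h.coord l hl
  · intro f g
    obtain ⟨R, hR, hR'⟩ := h.dep (MvPolynomial.map (algebraMap k L) f)
      (MvPolynomial.map (algebraMap k L) g)
    obtain ⟨n', hn⟩ := MvPolynomial.ne_zero_iff.mp hR
    obtain ⟨e, he⟩ := exists_functional (k := k) _ hn
    refine ⟨lam (Fin 2) e R, ?_, ?_⟩
    · intro h0
      apply he
      rw [← coeff_lam, h0, MvPolynomial.coeff_zero]
    · rw [← lam_aeval]
      apply lam_mem
      rw [← hI]
      convert hR' using 2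
      congr 1
      funext i
      fin_cases i <;> rfl
  · intro m hm R hR hmem
    rw [Ideal.mem_comap, map_sum] at hmem
    have hR' : R.map (algebraMap k L) ≠ 0 := by
      rw [Ne, Polynomial.map_eq_zero]
      exact hR
    apply h.indep m hm (R.map (algebraMap k L)) hR'
    rw [Polynomial.natDegree_map]
    convert hmem using 2 with i
    rw [map_mul, map_mul, map_pow, map_pow, map_mp, map_mp, MvPolynomial.map_C,
      Polynomial.coeff_map]

/-- A curve over the algebraic numbers, and finitely many polynomials, are defined over a number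
field. -/
theorem descent {n : ℕ} (I : Ideal (PN n Om)) (h : IsCurve I) (U : Finset (PN n Om)) :
    ∃ (k : Type) (_ : Field k) (_ : NumberField k) (ι : k →+* Om) (I₀ : Ideal (PN n k)),
      IsCurve I₀ ∧ I = I₀.map (MvPolynomial.map ι) ∧
        ∀ f ∈ U, ∃ f₀ : PN n k, MvPolynomial.map ι f₀ = f := by
  classical
  obtain ⟨G, hG⟩ : I.FG := (isNoetherianRing_iff_ideal_fg (PN n Om)).mp inferInstance I
  let S : Set Om := ((G ∪ U).biUnion fun f => f.coeffs : Finset Om)
  have hSfin : FiniteDimensional ℚ (IntermediateField.adjoin ℚ S) :=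
    IntermediateField.finiteDimensional_adjoin fun y _ => Anom.isInt y
  have hN : NumberField (IntermediateField.adjoin ℚ S) := {}
  have hmem : ∀ f ∈ G ∪ U, ∃ f₀ : PN n (IntermediateField.adjoin ℚ S),
      MvPolynomial.map (algebraMap (IntermediateField.adjoin ℚ S) Om) f₀ = f := by
    intro f hf
    have h1 : f ∈ Set.range (MvPolynomial.map (σ := Fin n)
        (algebraMap (IntermediateField.adjoin ℚ S) Om)) := by
      rw [MvPolynomial.mem_range_map_iff_coeffs_subset]
      intro c hc
      have h2 : c ∈ S := by
        show c ∈ ((G ∪ U).biUnion fun f => f.coeffs : Finset Om)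
        rw [Finset.mem_biUnion]
        exact ⟨f, hf, hc⟩
      exact ⟨⟨c, IntermediateField.subset_adjoin ℚ S h2⟩, rfl⟩
    exact h1
  have hI : I = (I.comap (MvPolynomial.map
      (algebraMap (IntermediateField.adjoin ℚ S) Om))).map
      (MvPolynomial.map (algebraMap (IntermediateField.adjoin ℚ S) Om)) := by
    refine le_antisymm ?_ Ideal.map_comap_le
    conv_lhs => rw [← hG]
    rw [Ideal.span_le]
    intro g hg
    obtain ⟨g₀, hg₀⟩ := hmem g (Finset.mem_union_left _ hg)
    rw [← hg₀]
    refine Ideal.mem_map_of_mem _ ?_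
    rw [Ideal.mem_comap, hg₀, ← hG]
    exact Ideal.subset_span hg
  exact ⟨IntermediateField.adjoin ℚ S, inferInstance, hN,
    algebraMap (IntermediateField.adjoin ℚ S) Om, _, isCurve_comap I h hI, hI,
    fun f hf => hmem f (Finset.mem_union_right _ hf)⟩

end Pool.Agent.Work.MP_7da6af_nt.Cn
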