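import Pool.Agent.Work.MP_7da6af_nt.Cn.Fermat

/-! # Surfaces with fibres `u x ^ n + v z ^ n = w`: irreducibility -/

set_option autoImplicit false

namespace Pool.Agent.Work.MP_7da6af_nt.Cn

open Pool.Agent.Work.MP_7da6af_nt
open TopologicalSpace

section

variable {F : Type} [Field F] [CharZero F]

/-- the equation of the fibre over the field of functions on the curve -/
noncomputable def gF (α γ : F) (n : ℕ) : Polynomial (Polynomial F) :=
  Polynomial.X ^ n + Polynomial.C (Polynomial.C α * Polynomial.X ^ n - Polynomial.C γ)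

omit [CharZero F] in
theorem gF_monic (α γ : F) {n : ℕ} (hn : 0 < n) : (gF α γ n).Monic :=
  Polynomial.monic_X_pow_add_C _ hn.ne'

omit [CharZero F] in
theorem gF_natDegree (α γ : F) (n : ℕ) : (gF α γ n).natDegree = n :=
  Polynomial.natDegree_X_pow_add_C

theorem gF_irr {α γ : F} (hα : α ≠ 0) (hγ : γ ≠ 0) {n : ℕ} (hn : 0 < n) :
    Irreducible (gF α γ n) := by
  set c : Polynomial F := Polynomial.C α * Polynomial.X ^ n - Polynomial.C γ with hc
  have hc' : c = Polynomial.C α * (Polynomial.X ^ n - Polynomial.C (γ / α)) := by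
    rw [hc, mul_sub, ← Polynomial.C_mul, mul_div_cancel₀ _ hα]
  have hCα : IsUnit (Polynomial.C α) := Polynomial.isUnit_C.mpr (IsUnit.mk0 α hα)
  have hsep : (Polynomial.X ^ n - Polynomial.C (γ / α) : Polynomial F).Separable :=
    Polynomial.separable_X_pow_sub_C _ (by exact_mod_cast hn.ne') (div_ne_zero hγ hα)
  have hsq : Squarefree c := by
    rw [hc']
    exact ((associated_unit_mul_right _ _ hCα).squarefree_iff).mp hsep.squarefree
  have hdeg : c.natDegree = n := by
    rw [hc', Polynomial.natDegree_C_mul hα, Polynomial.natDegree_X_pow_sub_C]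
  have hnu : ¬ IsUnit c := by
    intro h
    have := Polynomial.natDegree_eq_zero_of_isUnit h
    omega
  have hc0 : c ≠ 0 := by
    intro h
    rw [h, Polynomial.natDegree_zero] at hdeg
    omega
  obtain ⟨p, hp, hpc⟩ := WfDvdMonoid.exists_irreducible_factor hnu hc0
  have hprime : (Ideal.span {p} : Ideal (Polynomial F)).IsPrime :=
    (Ideal.span_singleton_prime hp.ne_zero).mpr hp.prime
  have hE : (gF α γ n).IsEisensteinAt (Ideal.span {p}) := by
    refine ⟨?_, ?_, ?_⟩
    · rw [(gF_monic α γ hn).leadingCoeff]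
      exact fun h => hprime.ne_top ((Ideal.eq_top_iff_one _).mpr h)
    · intro l hl
      rw [gF_natDegree] at hl
      unfold gF
      rw [Polynomial.coeff_add, Polynomial.coeff_X_pow, if_neg (by omega), zero_add,
        Polynomial.coeff_C]
      split_ifs
      · exact Ideal.mem_span_singleton.mpr hpc
      · exact zero_mem _
    · unfold gF
      rw [Polynomial.coeff_add, Polynomial.coeff_X_pow, if_neg (by omega), zero_add,
        Polynomial.coeff_C, if_pos rfl, Ideal.span_singleton_pow, Ideal.mem_span_singleton]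
      intro h
      rw [pow_two] at h
      exact hp.not_isUnit (hsq p h)
  exact hE.irreducible hprime (gF_monic α γ hn).isPrimitive (by rw [gF_natDegree]; exact hn)

/-- transcendence degree of the function field of the surface -/
theorem trdeg_E {k A : Type} [Field k] [CommRing A] [IsDomain A] [Algebra k A]
    (hA : Algebra.trdeg k A ≤ 1) (g : Polynomial (Polynomial (FractionRing A))) (hg : g.Monic)
    (hg0 : 0 < g.natDegree) [IsDomain (AdjoinRoot g)] :
    Algebra.trdeg k (FractionRing (AdjoinRoot g)) ≤ 2 := by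
  have hinj : FaithfulSMul k A := by
    rw [faithfulSMul_iff_algebraMap_injective]
    exact (algebraMap k A).injective
  have h1 := trdeg_add_eq k A (A := FractionRing A)
  have h1' : Algebra.trdeg A (FractionRing A) = 0 := by
    have : Algebra.IsAlgebraic A (FractionRing A) :=
      IsLocalization.isAlgebraic _ (nonZeroDivisors A)
    exact trdeg_eq_zero
  rw [h1', add_zero] at h1
  have h2 := trdeg_add_eq k (FractionRing A) (A := Polynomial (FractionRing A))
  rw [Polynomial.trdeg_of_isDomain, ← h1] at h2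
  have : Module.Finite (Polynomial (FractionRing A)) (AdjoinRoot g) := hg.finite_adjoinRoot
  have h3' : Algebra.trdeg (Polynomial (FractionRing A)) (AdjoinRoot g) = 0 := by
    have : Algebra.IsIntegral (Polynomial (FractionRing A)) (AdjoinRoot g) :=
      Algebra.IsIntegral.of_finite _ _
    exact trdeg_eq_zero
  have hinj3 : Function.Injective (algebraMap (Polynomial (FractionRing A)) (AdjoinRoot g)) := by
    rw [injective_iff_map_eq_zero]
    intro a ha
    have h5 : AdjoinRoot.mk g (Polynomial.C a) = 0 := ha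
    rw [AdjoinRoot.mk_eq_zero] at h5
    have h6 := Polynomial.eq_zero_of_dvd_of_natDegree_lt h5 (by
      rw [Polynomial.natDegree_C]
      exact hg0)
    exact Polynomial.C_eq_zero.mp h6
  have hinj2 := (faithfulSMul_iff_algebraMap_injective (Polynomial (FractionRing A))
    (AdjoinRoot g)).mpr hinj3
  have h3 := trdeg_add_eq k (Polynomial (FractionRing A)) (A := AdjoinRoot g)
  rw [h3', add_zero] at h3
  have h4 := trdeg_add_eq k (AdjoinRoot g) (A := FractionRing (AdjoinRoot g))
  have h4' : Algebra.trdeg (AdjoinRoot g) (FractionRing (AdjoinRoot g)) = 0 := by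
    have : Algebra.IsAlgebraic (AdjoinRoot g) (FractionRing (AdjoinRoot g)) :=
      IsLocalization.isAlgebraic _ (nonZeroDivisors (AdjoinRoot g))
    exact trdeg_eq_zero
  rw [h4', add_zero] at h4
  rw [← h4, ← h3, ← h2]
  calc Algebra.trdeg k A + 1 ≤ 1 + 1 := add_le_add hA le_rfl
    _ = 2 := one_add_one_eq_two

end

section

variable {ν : ℕ} {I : Ideal (PN ν Om)} {u v w : PN ν Om}

/-- For every surface with fibres `u x ^ n + v z ^ n = w` there is a field of functions. -/
theorem exists_functions (h : Hyp I u v w) (hw : w ∉ I) (n : ℕ) (hn : 0 < n) :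
    ∃ (E : Type) (_ : Field E) (_ : Algebra Om E) (θ : MvPolynomial (Fin (ν + 2)) Om →ₐ[Om] E),
      (∀ f, f ∈ vI (surfF I u v w n) ↔ θ f = 0) ∧ Algebra.trdeg Om E ≤ 2 := by
  have hI := h.curve.prime
  let A := PN ν Om ⧸ I
  let F := FractionRing A
  have : CharZero F := charZero_of_injective_algebraMap (algebraMap Om F).injective
  let κF : PN ν Om →+* F := (algebraMap A F).comp (Ideal.Quotient.mk I)
  have hκF : ∀ f, κF f = 0 ↔ f ∈ I := by
    intro f
    have h1 : κF f = algebraMap A F (Ideal.Quotient.mk I f) := rfl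
    rw [h1, map_eq_zero_iff _ (IsFractionRing.injective A F), Ideal.Quotient.eq_zero_iff_mem]
  have hu0 : κF u ≠ 0 := fun h0 => h.hu ((hκF u).mp h0)
  have hv0 : κF v ≠ 0 := fun h0 => h.hv ((hκF v).mp h0)
  have hw0 : κF w ≠ 0 := fun h0 => hw ((hκF w).mp h0)
  set g := gF (κF u / κF v) (κF w / κF v) n with hg
  have hgm : g.Monic := gF_monic _ _ hn
  have hgd : g.natDegree = n := gF_natDegree _ _ n
  have hgi : Irreducible g := gF_irr (div_ne_zero hu0 hv0) (div_ne_zero hw0 hv0) hn
  have hdom : IsDomain (AdjoinRoot g) := AdjoinRoot.isDomain_of_prime hgi.prime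
  let κ : PN ν Om →+* AdjoinRoot g := (AdjoinRoot.of g).comp (Polynomial.C.comp κF)
  have hκ : ∀ f, κ f = AdjoinRoot.of g (Polynomial.C (κF f)) := fun f => rfl
  have hrel : κ u * AdjoinRoot.of g Polynomial.X ^ n + κ v * AdjoinRoot.root g ^ n = κ w := by
    have h1 : Polynomial.eval₂ (AdjoinRoot.of g) (AdjoinRoot.root g) (Polynomial.X ^ n +
        Polynomial.C (Polynomial.C (κF u / κF v) * Polynomial.X ^ n -
          Polynomial.C (κF w / κF v))) = 0 := AdjoinRoot.eval₂_root g
    rw [Polynomial.eval₂_add, Polynomial.eval₂_pow, Polynomial.eval₂_X, Polynomial.eval₂_C,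
      map_sub, map_mul, map_pow] at h1
    have h2 : κ v * AdjoinRoot.of g (Polynomial.C (κF u / κF v)) = κ u := by
      rw [hκ, hκ, ← map_mul, ← Polynomial.C_mul, mul_div_cancel₀ _ hv0]
    have h3 : κ v * AdjoinRoot.of g (Polynomial.C (κF w / κF v)) = κ w := by
      rw [hκ, hκ, ← map_mul, ← Polynomial.C_mul, mul_div_cancel₀ _ hv0]
    rw [← h2, ← h3]
    linear_combination (κ v) * h1
  have hκv : κ v ≠ 0 := by
    rw [hκ]
    have h1 : IsUnit (Polynomial.C (κF v)) := Polynomial.isUnit_C.mpr (IsUnit.mk0 _ hv0)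
    exact (h1.map (AdjoinRoot.of g)).ne_zero
  let θ : MvPolynomial (Fin (ν + 2)) Om →ₐ[Om] AdjoinRoot g :=
    MvPolynomial.aeval (co5 0 κ (AdjoinRoot.of g Polynomial.X) (AdjoinRoot.root g))
  have hθ : ∀ f, θ f = ev5 0 κ (AdjoinRoot.of g Polynomial.X) (AdjoinRoot.root g) f := by
    intro f
    have h1 : κ.comp MvPolynomial.C = algebraMap Om (AdjoinRoot g) := by
      ext a
      rfl
    unfold ev5
    rw [h1]
    rfl
  have hker : ∀ f, f ∈ vI (surfF I u v w n) ↔ θ f = 0 := by
    intro f
    obtain ⟨m, r, hr⟩ := elim u v w n hn ord01 f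
    rw [mem_vIF h hw n hn f m r hr]
    have h1 := hr (AdjoinRoot g) κ _ _ hrel
    have h2 : ∀ l, Polynomial.eval₂ κ (AdjoinRoot.of g Polynomial.X) (r l) =
        AdjoinRoot.of g ((r l).map κF) := by
      intro l
      have h3 : (r l).map κF = Polynomial.eval₂ (Polynomial.C.comp κF) Polynomial.X (r l) := rfl
      rw [h3, Polynomial.hom_eval₂]
    rw [← hθ] at h1
    rw [Finset.sum_congr rfl fun l _ => by rw [h2 l]] at h1
    have h4 : ∑ l ∈ Finset.range n, AdjoinRoot.of g ((r l).map κF) * AdjoinRoot.root g ^ l =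
        AdjoinRoot.mk g (∑ l ∈ Finset.range n, Polynomial.C ((r l).map κF) * Polynomial.X ^ l) := by
      rw [map_sum]
      refine Finset.sum_congr rfl fun l _ => ?_
      rw [map_mul, map_pow]
      rfl
    rw [h4] at h1
    constructor
    · intro hrI
      have h5 : ∀ l ∈ Finset.range n, (r l).map κF = 0 := by
        intro l hl
        ext e
        rw [Polynomial.coeff_map, Polynomial.coeff_zero]
        exact (hκF _).mpr (hrI l hl e)
      rw [Finset.sum_eq_zero fun l hl => by rw [h5 l hl, Polynomial.C_0, zero_mul], map_zero] at h1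
      exact (mul_eq_zero.mp h1).resolve_right (pow_ne_zero _ hκv)
    · intro hf l hl e
      rw [hf, zero_mul] at h1
      have h5 := AdjoinRoot.mk_eq_zero.mp h1.symm
      have h6 : (∑ l ∈ Finset.range n, Polynomial.C ((r l).map κF) * Polynomial.X ^ l :
          Polynomial (Polynomial F)) = 0 := by
        refine Polynomial.eq_zero_of_dvd_of_natDegree_lt h5 ?_
        rw [hgd]
        refine lt_of_le_of_lt (Polynomial.natDegree_sum_le_of_forall_le (n := n - 1) _ _ ?_)
          (by omega)
        intro l' hl'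
        rw [Finset.mem_range] at hl'
        exact (Polynomial.natDegree_C_mul_X_pow_le _ _).trans (by omega)
      have h7 : (r l).map κF = 0 := by
        have h8 := congrArg (fun P => Polynomial.coeff P l) h6
        simp only [Polynomial.finsetSum_coeff, Polynomial.coeff_C_mul, Polynomial.coeff_X_pow,
          mul_ite, mul_one, mul_zero, Polynomial.coeff_zero] at h8
        rwa [Finset.sum_ite_eq, if_pos hl] at h8
      have h9 := congrArg (fun P => Polynomial.coeff P e) h7
      simp only [Polynomial.coeff_map, Polynomial.coeff_zero] at h9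
      exact (hκF _).mp h9
  refine ⟨FractionRing (AdjoinRoot g), inferInstance, inferInstance,
    (IsScalarTower.toAlgHom Om (AdjoinRoot g) (FractionRing (AdjoinRoot g))).comp θ, ?_, ?_⟩
  · intro f
    rw [hker]
    have h1 : ((IsScalarTower.toAlgHom Om (AdjoinRoot g) (FractionRing (AdjoinRoot g))).comp θ) f =
        algebraMap (AdjoinRoot g) (FractionRing (AdjoinRoot g)) (θ f) := rfl
    rw [h1, map_eq_zero_iff _ (IsFractionRing.injective (AdjoinRoot g)
      (FractionRing (AdjoinRoot g)))]
  · exact trdeg_E (trdeg_quot h.curve) g hgm (by rw [hgd]; exact hn)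

end

end Pool.Agent.Work.MP_7da6af_nt.Cn
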