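import Pool.Agent.Work.MP_7da6af_nt.Cn.MPoly
import Pool.Agent.Work.MP_7da6af_nt.Cn.Pts
import Pool.Agent.Work.MP_7da6af_nt.ML

/-! # Finitely many points of the curve: bounded height -/

set_option autoImplicit false

namespace Pool.Agent.Work.MP_7da6af_nt.Cn

open NumberField Polynomial

variable {n : ℕ} {k : Type} [Field k] [NumberField k]

/-- the values of `u`, `v`, `w` -/
theorem uvw (D : Dat n k) (B : ℝ) : ∃ C : ℝ, 0 ≤ C ∧
    ∀ (K : Type) [Field K] [NumberField K] (φ : k →+* K) (x z : K) (t : Fin n → K),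
      Pt D K φ x z t → (∀ l, hh (t l) ≤ B * dg K) →
      hh (e3 φ t D.u) ≤ C * dg K ∧ hh (e3 φ t D.v) ≤ C * dg K ∧
        hh (e3 φ t D.w) ≤ C * dg K := by
  obtain ⟨Cu, hCu, h1⟩ := mhh_bdd D.u B
  obtain ⟨Cv, hCv, h2⟩ := mhh_bdd D.v B
  obtain ⟨Cw, hCw, h3⟩ := mhh_bdd D.w B
  refine ⟨Cu + Cv + Cw, by positivity, fun K _ _ φ x z t h ht => ?_⟩
  have hd : 0 < dg K := dg_pos
  refine ⟨(h1 K φ t ht h.hu).trans ?_, (h2 K φ t ht h.hv).trans ?_, (h3 K φ t ht h.hw).trans ?_⟩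
  · exact mul_le_mul_of_nonneg_right (by linarith) hd.le
  · exact mul_le_mul_of_nonneg_right (by linarith) hd.le
  · exact mul_le_mul_of_nonneg_right (by linarith) hd.le

/-- one point `τ` -/
theorem fixedPt (D : Dat n k) (B : ℝ) (N : Type) [Field N] [NumberField N] (ν : k →+* N)
    (τ : Fin n → N) : ∃ C : ℝ, 0 ≤ C ∧
    ∀ (K : Type) [Field K] [NumberField K] (φ : k →+* K) (x z : K) (t : Fin n → K),
      Pt D K φ x z t → (∀ l, hh (t l) ≤ B * dg K) →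
      (∃ (L : Type) (_ : Field L) (_ : NumberField L) (f : K →+* L) (g : N →+* L),
        f.comp φ = g.comp ν ∧ ∀ l, f (t l) = g (τ l)) → hh x ≤ C * dg K := by
  classical
  let l : Fin (n + 2) → N := Fin.cons (e3 ν τ D.u / e3 ν τ D.w)
    (Fin.cons (e3 ν τ D.v / e3 ν τ D.w) τ : Fin (n + 1) → N)
  -- values
  have hval : ∀ (K : Type) [Field K] (φ : k →+* K) (t : Fin n → K) (L : Type) [Field L]
      (f : K →+* L) (g : N →+* L), f.comp φ = g.comp ν → (∀ l, f (t l) = g (τ l)) →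
      ∀ P : PN n k, g (e3 ν τ P) = f (e3 φ t P) := by
    intro K _ φ t L _ f g h1 h2 P
    rw [← e3_comp, ← e3_comp, h1]
    congr 1
    funext l
    exact (h2 l).symm
  by_cases hl : ∀ i, l i ≠ 0
  swap
  · refine ⟨0, le_rfl, fun K _ _ φ x z t h _ hex => absurd ?_ hl⟩
    obtain ⟨L, _, _, f, g, h1, h2⟩ := hex
    have hP := hval K φ t L f g h1 h2
    have hne : ∀ P : PN n k, e3 φ t P ≠ 0 → e3 ν τ P ≠ 0 := fun P h3 h4 => by
      have h5 := hP P
      rw [h4, map_zero] at h5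
      exact h3 ((map_eq_zero f).mp h5.symm)
    have hτ : ∀ l, τ l ≠ 0 := fun l h3 => by
      have h4 := h2 l
      rw [h3, map_zero, map_eq_zero] at h4
      exact h.on.1 l h4
    intro i
    refine Fin.cases ?_ (fun i => ?_) i
    · exact div_ne_zero (hne _ h.hu) (hne _ h.hw)
    · refine Fin.cases ?_ (fun i => ?_) i
      · exact div_ne_zero (hne _ h.hv) (hne _ h.hw)
      · exact hτ i
  obtain ⟨C, hC, hml⟩ := ml N (n + 2) l hl
  obtain ⟨C', hC', huvw⟩ := uvw D B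
  refine ⟨C + 2 * C', by positivity, fun K _ _ φ x z t h hy hex => ?_⟩
  obtain ⟨L, _, _, f, g, hfg, hft⟩ := hex
  have hP := hval K φ t L f g hfg hft
  obtain ⟨h1, h2, h3⟩ := huvw K φ x z t h hy
  obtain ⟨m, hm, ⟨c, hc⟩, ⟨d, hd⟩⟩ := h.dep
  have hmon : ∀ (a b : ℤ) (κ : Fin n → ℤ),
      g (mon l (Fin.cons a (Fin.cons b κ : Fin (n + 1) → ℤ))) =
      f (mon t κ * (e3 φ t D.u / e3 φ t D.w) ^ a * (e3 φ t D.v / e3 φ t D.w) ^ b) := by
    intro a b κ
    rw [map_mul, map_mul, map_zpow₀, map_zpow₀, map_mon f t]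
    unfold mon
    rw [Fin.prod_univ_succ, Fin.prod_univ_succ]
    simp only [l, Fin.cons_zero, Fin.cons_succ, map_mul, map_zpow₀, map_prod, map_div₀, hP, hft]
    ring
  have hx' : (e3 φ t D.u / e3 φ t D.w) * x ≠ 0 := mul_ne_zero (div_ne_zero h.hu h.hw) h.hx
  have hz' : (e3 φ t D.v / e3 φ t D.w) * z ≠ 0 := mul_ne_zero (div_ne_zero h.hv h.hw) h.hz
  have hw := h.hw
  have hsum : (e3 φ t D.u / e3 φ t D.w) * x + (e3 φ t D.v / e3 φ t D.w) * z = 1 := by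
    have := h.heq
    field_simp
    exact this
  have hsum' : f ((e3 φ t D.u / e3 φ t D.w) * x) + f ((e3 φ t D.v / e3 φ t D.w) * z) = 1 := by
    rw [← map_add, hsum, map_one]
  have hlast := hml L g _ _ ((map_ne_zero f).mpr hx') ((map_ne_zero f).mpr hz') hsum' m hm
    ⟨Fin.cons m (Fin.cons 0 c : Fin (n + 1) → ℤ), by
      rw [hmon, ← map_pow, mul_pow, hc, zpow_natCast, zpow_zero, mul_one, mul_comm]⟩
    ⟨Fin.cons 0 (Fin.cons m d : Fin (n + 1) → ℤ), by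
      rw [hmon, ← map_pow, mul_pow, hd, zpow_natCast, zpow_zero, mul_one, mul_comm]⟩
  -- back to `K`
  have hmap := hh_map f hx'
  have hdK : 0 < dg K := dg_pos
  have hdL : 0 < dg L := dg_pos
  have hlast' : hh ((e3 φ t D.u / e3 φ t D.w) * x) ≤ C * dg K := by
    have h6 : dg L * hh ((e3 φ t D.u / e3 φ t D.w) * x) ≤ dg L * (C * dg K) := by
      rw [← hmap]
      nlinarith
    exact le_of_mul_le_mul_left h6 hdL
  have hx : x = ((e3 φ t D.u / e3 φ t D.w) * x) * (e3 φ t D.w / e3 φ t D.u) := by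
    have := h.hu
    field_simp
  have h4 : hh x ≤ hh ((e3 φ t D.u / e3 φ t D.w) * x) + hh (e3 φ t D.w / e3 φ t D.u) := by
    conv_lhs => rw [hx]
    exact hh_mul_le hx' (div_ne_zero h.hw h.hu)
  have h5 := hh_div_le h.hw h.hu
  nlinarith

/-- the height of `x` when the first coordinate of `t` is a root of `Q` -/
theorem fixedQ [NeZero n] (D : Dat n k) (B : ℝ) (Q : ℤ[X]) (hQ : Q ≠ 0) : ∃ C : ℝ, 0 ≤ C ∧
    ∀ (K : Type) [Field K] [NumberField K] (φ : k →+* K) (x z : K) (t : Fin n → K),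
      Pt D K φ x z t → (∀ l, hh (t l) ≤ B * dg K) → aeval (t 0) Q = 0 → hh x ≤ C * dg K := by
  classical
  obtain ⟨N, _, _, ν, T, hT⟩ := finite_pts D.I D.rels Q hQ
  choose C hC0 hC using fun τ => fixedPt D B N ν τ
  refine ⟨∑ τ ∈ T, C τ, Finset.sum_nonneg fun τ _ => hC0 τ, fun K _ _ φ x z t h hy hQt => ?_⟩
  obtain ⟨L, hL1, hL2, f, g, hfg, τ, hτ, hft⟩ := hT K φ t h.on hQt
  have h1 := hC τ K φ x z t h hy ⟨L, hL1, hL2, f, g, hfg, hft⟩
  have h2 : C τ ≤ ∑ τ ∈ T, C τ := Finset.single_le_sum (fun τ _ => hC0 τ) hτ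
  exact h1.trans (mul_le_mul_of_nonneg_right h2 dg_pos.le)

end Pool.Agent.Work.MP_7da6af_nt.Cn
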