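import Mathlib

/-! # Three relations on `n + 2` coordinates -/

set_option autoImplicit false

namespace Pool.Agent.Work.MP_7da6af_nt.Cn

section

variable {n : ℕ} {G : Type} [CommGroup G]

/-- the value of a monomial in five coordinates -/
def rl (x z : G) (t : Fin n → G) (v : Fin (n + 2) → ℤ) : G :=
  x ^ v 0 * z ^ v 1 * ∏ j : Fin n, t j ^ v j.succ.succ

theorem rl_add (x z : G) (t : Fin n → G) (v w : Fin (n + 2) → ℤ) :
    rl x z t (v + w) = rl x z t v * rl x z t w := by
  unfold rl
  simp only [Pi.add_apply, zpow_add, Finset.prod_mul_distrib]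
  simp only [mul_assoc, mul_left_comm]

theorem rl_smul (x z : G) (t : Fin n → G) (a : ℤ) (v : Fin (n + 2) → ℤ) :
    rl x z t (a • v) = rl x z t v ^ a := by
  unfold rl
  simp only [Pi.smul_apply, smul_eq_mul, mul_zpow]
  congr 1
  · congr 1
    · rw [mul_comm, zpow_mul]
    · rw [mul_comm, zpow_mul]
  · rw [← Finset.prod_zpow]
    refine Finset.prod_congr rfl fun j _ => ?_
    rw [mul_comm, zpow_mul]

theorem rl_sub (x z : G) (t : Fin n → G) (v w : Fin (n + 2) → ℤ) (hv : rl x z t v = 1)
    (hw : rl x z t w = 1) (a b : ℤ) : rl x z t (a • v - b • w) = 1 := by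
  rw [sub_eq_add_neg, ← neg_smul, rl_add, rl_smul, rl_smul, hv, hw, one_zpow, one_zpow, one_mul]

/-- two relations among the last three coordinates are dependent -/
theorem rl_dep (x z : G) (t : Fin n → G)
    (hno : ¬ ∃ N : Fin 2 → Fin n → ℤ, LinearIndependent ℤ N ∧ ∀ i, ∏ j, t j ^ N i j = 1)
    (v w : Fin (n + 2) → ℤ) (hv : rl x z t v = 1) (hw : rl x z t w = 1)
    (hv0 : v 0 = 0) (hv1 : v 1 = 0) (hw0 : w 0 = 0) (hw1 : w 1 = 0)
    (hind : ∀ a b : ℤ, a • v + b • w = 0 → a = 0 ∧ b = 0) : False := by
  apply hno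
  refine ⟨![fun j => v j.succ.succ, fun j => w j.succ.succ], ?_, ?_⟩
  · rw [LinearIndependent.pair_iff]
    intro a b hab
    apply hind
    funext i
    have hab' := fun j : Fin n => congrFun hab j
    simp only [Pi.add_apply, Pi.smul_apply, smul_eq_mul, Pi.zero_apply] at hab' ⊢
    refine Fin.cases ?_ (fun i => ?_) i
    · rw [hv0, hw0]
      ring
    · refine Fin.cases ?_ (fun i => ?_) i
      · rw [Fin.succ_zero_eq_one, hv1, hw1]
        ring
      · exact hab' i
  · intro i
    fin_cases i
    · have := hv
      unfold rl at this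
      rw [hv0, hv1, zpow_zero, zpow_zero, one_mul, one_mul] at this
      exact this
    · have := hw
      unfold rl at this
      rw [hw0, hw1, zpow_zero, zpow_zero, one_mul, one_mul] at this
      exact this

end

/-- Three independent relations, at most one of which (up to multiples) involves the last three
coordinates only. -/
theorem linalg {n : ℕ} {G : Type} [CommGroup G] (x z : G) (t : Fin n → G) (M : Fin 3 → Fin (n + 2) → ℤ)
    (hM : LinearIndependent ℤ M)
    (hrel : ∀ i, x ^ M i 0 * z ^ M i 1 * ∏ j : Fin n, t j ^ M i j.succ.succ = 1)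
    (hno : ¬ ∃ N : Fin 2 → Fin n → ℤ, LinearIndependent ℤ N ∧ ∀ i, ∏ j, t j ^ N i j = 1) :
    (∃ k : Fin n → ℤ, k ≠ 0 ∧ ∏ j, t j ^ k j = 1) ∧
    ∃ m : ℕ, 0 < m ∧ (∃ c : Fin n → ℤ, x ^ m = ∏ j, t j ^ c j) ∧
      ∃ d : Fin n → ℤ, z ^ m = ∏ j, t j ^ d j := by
  have hr : ∀ i, rl x z t (M i) = 1 := hrel
  have hM' : ∀ a : Fin 3 → ℤ, ∑ i, a i • M i = 0 → ∀ i, a i = 0 := by
    rw [Fintype.linearIndependent_iff] at hM
    exact hM
  by_cases hd : ∃ i j, M i 0 * M j 1 - M i 1 * M j 0 ≠ 0
  · constructor
    · -- the relation among the last three coordinates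
      let a : Fin 3 → ℤ := ![M 1 0 * M 2 1 - M 1 1 * M 2 0, -(M 0 0 * M 2 1 - M 0 1 * M 2 0),
        M 0 0 * M 1 1 - M 0 1 * M 1 0]
      have ha : ¬ ∀ i, a i = 0 := by
        intro h
        have h0 : M 1 0 * M 2 1 - M 1 1 * M 2 0 = 0 := h 0
        have h1 : -(M 0 0 * M 2 1 - M 0 1 * M 2 0) = 0 := h 1
        have h2 : M 0 0 * M 1 1 - M 0 1 * M 1 0 = 0 := h 2
        obtain ⟨i, j, hij⟩ := hd
        apply hij
        fin_cases i <;> fin_cases j <;> simp only [Fin.zero_eta, Fin.mk_one, Fin.reduceFinMk] <;>
          linarith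
      let v : Fin (n + 2) → ℤ := a 0 • M 0 + (a 1 • M 1 + a 2 • M 2)
      have hv : rl x z t v = 1 := by
        show rl x z t (a 0 • M 0 + (a 1 • M 1 + a 2 • M 2)) = 1
        rw [rl_add, rl_add, rl_smul, rl_smul, rl_smul, hr, hr, hr, one_zpow, one_zpow, one_zpow,
          one_mul, one_mul]
      have hv0 : v 0 = 0 := by
        show a 0 * M 0 0 + (a 1 * M 1 0 + a 2 * M 2 0) = 0
        show (M 1 0 * M 2 1 - M 1 1 * M 2 0) * M 0 0 + (-(M 0 0 * M 2 1 - M 0 1 * M 2 0) * M 1 0 +
          (M 0 0 * M 1 1 - M 0 1 * M 1 0) * M 2 0) = 0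
        ring
      have hv1 : v 1 = 0 := by
        show a 0 * M 0 1 + (a 1 * M 1 1 + a 2 * M 2 1) = 0
        show (M 1 0 * M 2 1 - M 1 1 * M 2 0) * M 0 1 + (-(M 0 0 * M 2 1 - M 0 1 * M 2 0) * M 1 1 +
          (M 0 0 * M 1 1 - M 0 1 * M 1 0) * M 2 1) = 0
        ring
      refine ⟨fun j => v j.succ.succ, ?_, ?_⟩
      · intro hk
        apply ha
        apply hM'
        have : v = 0 := by
          funext i
          have hk' := fun j : Fin n => congrFun hk j
          refine Fin.cases ?_ (fun i => ?_) i
          · exact hv0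
          · refine Fin.cases ?_ (fun i => ?_) i
            · exact hv1
            · exact hk' i
        rw [Fin.sum_univ_three, add_assoc]
        exact this
      · have := hv
        unfold rl at this
        rw [hv0, hv1, zpow_zero, zpow_zero, one_mul, one_mul] at this
        exact this
    · obtain ⟨i, j, hij⟩ := hd
      set δ : ℤ := M i 0 * M j 1 - M i 1 * M j 0 with hδ
      -- relations with first coordinates `(δ, 0)` and `(0, δ)`
      have h1 : rl x z t (M j 1 • M i - M i 1 • M j) = 1 := rl_sub x z t _ _ (hr i) (hr j) _ _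
      have h2 : rl x z t (M i 0 • M j - M j 0 • M i) = 1 := rl_sub x z t _ _ (hr j) (hr i) _ _
      have key : ∀ (y : G) (k : Fin n → ℤ), y ^ δ * ∏ l, t l ^ k l = 1 →
          ∃ c : Fin n → ℤ, y ^ δ.natAbs = ∏ l, t l ^ c l := by
        intro y k hk
        rcases Int.natAbs_eq δ with h | h
        · refine ⟨fun l => - k l, ?_⟩
          rw [← zpow_natCast, ← h]
          simp only [zpow_neg, Finset.prod_inv_distrib]
          exact eq_inv_of_mul_eq_one_left hk
        · refine ⟨k, ?_⟩
          have h' : ((δ.natAbs : ℕ) : ℤ) = -δ := by omega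
          rw [← zpow_natCast, h', zpow_neg]
          exact inv_eq_of_mul_eq_one_right hk
      refine ⟨δ.natAbs, Int.natAbs_pos.mpr hij, ?_, ?_⟩
      · apply key x fun l => (M j 1 • M i - M i 1 • M j) l.succ.succ
        have := h1
        unfold rl at this
        have e0 : (M j 1 • M i - M i 1 • M j) 0 = δ := by
          simp only [Pi.sub_apply, Pi.smul_apply, smul_eq_mul, hδ]; ring
        have e1 : (M j 1 • M i - M i 1 • M j) 1 = 0 := by
          simp only [Pi.sub_apply, Pi.smul_apply, smul_eq_mul]; ring
        rw [e0, e1, zpow_zero, mul_one] at this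
        exact this
      · apply key z fun l => (M i 0 • M j - M j 0 • M i) l.succ.succ
        have := h2
        unfold rl at this
        have e0 : (M i 0 • M j - M j 0 • M i) 1 = δ := by
          simp only [Pi.sub_apply, Pi.smul_apply, smul_eq_mul, hδ]; ring
        have e1 : (M i 0 • M j - M j 0 • M i) 0 = 0 := by
          simp only [Pi.sub_apply, Pi.smul_apply, smul_eq_mul]; ring
        rw [e0, e1, zpow_zero, one_mul] at this
        exact this
  · exfalso
    push Not at hd
    -- all minors vanish: two relations among the last three coordinates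
    have main : ∀ (i j l : Fin 3) (e : Fin (n + 2)), i ≠ j → i ≠ l → j ≠ l → (e = 0 ∨ e = 1) →
        M i e ≠ 0 → False := by
      intro i j l e hij hil hjl he hMe
      have hz0 : ∀ s : Fin 3, (M i e • M s - M s e • M i) 0 = 0 := by
        intro s
        have h1 := hd i s
        rcases he with rfl | rfl <;>
          simp only [Pi.sub_apply, Pi.smul_apply, smul_eq_mul] <;> linarith [mul_comm (M i 0) (M s 0)]
      have hz1 : ∀ s : Fin 3, (M i e • M s - M s e • M i) 1 = 0 := by
        intro s
        have h1 := hd i s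
        rcases he with rfl | rfl <;>
          simp only [Pi.sub_apply, Pi.smul_apply, smul_eq_mul] <;> linarith [mul_comm (M i 1) (M s 1)]
      refine rl_dep x z t hno _ _ (rl_sub x z t _ _ (hr j) (hr i) (M i e) (M j e))
        (rl_sub x z t _ _ (hr l) (hr i) (M i e) (M l e)) (hz0 j) (hz1 j) (hz0 l) (hz1 l) ?_
      intro a b hab
      -- the coefficients in terms of `M`
      let g : Fin 3 → ℤ := fun s => if s = j then a * M i e else if s = l then b * M i e else
        -(a * M j e) - b * M l e
      have hg : ∑ s, g s • M s = 0 := by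
        have hs : ∑ s, g s • M s = g i • M i + g j • M j + g l • M l := by
          have huniv : (Finset.univ : Finset (Fin 3)) = {i, j, l} := by
            symm
            apply Finset.eq_univ_of_card
            rw [Finset.card_insert_of_notMem, Finset.card_insert_of_notMem,
              Finset.card_singleton]
            · rfl
            · simpa using hjl
            · simp [hij, hil]
          rw [huniv, Finset.sum_insert, Finset.sum_insert, Finset.sum_singleton, add_assoc]
          · simpa using hjl
          · simp [hij, hil]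
        rw [hs, ← hab]
        have e1 : g i = -(a * M j e) - b * M l e := by
          simp only [g]; rw [if_neg hij, if_neg hil]
        have e2 : g j = a * M i e := by simp [g]
        have e3 : g l = b * M i e := by simp [g, hjl.symm]
        rw [e1, e2, e3]
        funext s
        simp only [Pi.add_apply, Pi.sub_apply, Pi.smul_apply, smul_eq_mul]
        ring
      have h1 := hM' g hg j
      have h2 := hM' g hg l
      have e2 : g j = a * M i e := by simp [g]
      have e3 : g l = b * M i e := by simp [g, hjl.symm]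
      rw [e2] at h1
      rw [e3] at h2
      exact ⟨(mul_eq_zero.mp h1).resolve_right hMe, (mul_eq_zero.mp h2).resolve_right hMe⟩
    by_cases h0 : ∀ i : Fin 3, M i 0 = 0 ∧ M i 1 = 0
    · refine rl_dep x z t hno (M 0) (M 1) (hr 0) (hr 1) (h0 0).1 (h0 0).2 (h0 1).1 (h0 1).2 ?_
      intro a b hab
      have h := hM' ![a, b, 0] (by
        rw [Fin.sum_univ_three]
        simpa using hab)
      exact ⟨h 0, h 1⟩
    · push Not at h0
      obtain ⟨i, hi⟩ := h0
      have hex : ∃ j l : Fin 3, i ≠ j ∧ i ≠ l ∧ j ≠ l := by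
        fin_cases i
        · exact ⟨1, 2, by decide, by decide, by decide⟩
        · exact ⟨0, 2, by decide, by decide, by decide⟩
        · exact ⟨0, 1, by decide, by decide, by decide⟩
      obtain ⟨j, l, hij, hil, hjl⟩ := hex
      by_cases hi0 : M i 0 = 0
      · exact main i j l 1 hij hil hjl (Or.inr rfl) (hi hi0)
      · exact main i j l 0 hij hil hjl (Or.inl rfl) hi0

end Pool.Agent.Work.MP_7da6af_nt.Cn
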