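import Pool.Agent.Work.MP_7da6af_nt.Cn.Defs

/-! # Values of polynomials in three variables -/

set_option autoImplicit false

namespace Pool.Agent.Work.MP_7da6af_nt.Cn

open NumberField

variable {n : ℕ} {k : Type} [Field k] [NumberField k]

omit [NumberField k] in
theorem e3_C {K : Type} [Field K] (φ : k →+* K) (t : Fin n → K) (a : k) :
    e3 φ t (MvPolynomial.C a) = φ a := MvPolynomial.eval₂_C _ _ _

omit [NumberField k] in
theorem e3_X {K : Type} [Field K] (φ : k →+* K) (t : Fin n → K) (i : Fin n) :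
    e3 φ t (MvPolynomial.X i) = t i := MvPolynomial.eval₂_X _ _ _

omit [NumberField k] in
theorem e3_add {K : Type} [Field K] (φ : k →+* K) (t : Fin n → K) (P Q : PN n k) :
    e3 φ t (P + Q) = e3 φ t P + e3 φ t Q := MvPolynomial.eval₂_add _ _

omit [NumberField k] in
theorem e3_mul {K : Type} [Field K] (φ : k →+* K) (t : Fin n → K) (P Q : PN n k) :
    e3 φ t (P * Q) = e3 φ t P * e3 φ t Q := MvPolynomial.eval₂_mul _ _

theorem fs_max' {K : Type} [Field K] [NumberField K] (x : K) :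
    FS fun p : Pl K => max 0 (lg p x) := by
  by_cases hx : x = 0
  · subst hx
    simp only [lg_zero, max_self]
    exact fs_zero
  · exact fs_max hx

/-- upper bound -/
theorem mpoly_up (P : PN n k) : ∃ (C : ℝ) (S : Finset k), 0 ≤ C ∧
    ∀ (K : Type) [Field K] [NumberField K] (φ : k →+* K) (t : Fin n → K) (p : Pl K),
      max 0 (lg p (e3 φ t P)) ≤ C * (Gen.cst S φ p + ∑ l, max 0 (lg p (t l))) := by
  classical
  have hnn : ∀ (K : Type) [Field K] [NumberField K] (t : Fin n → K) (p : Pl K),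
      0 ≤ ∑ l, max 0 (lg p (t l)) := fun K _ _ t p =>
    Finset.sum_nonneg fun _ _ => le_max_left _ _
  induction P using MvPolynomial.induction_on with
  | C a =>
    refine ⟨1, {a}, zero_le_one, fun K _ _ φ t p => ?_⟩
    rw [e3_C]
    have h3 := Gen.ar_abs_le_cst (Finset.mem_singleton_self a) φ p
    have h4 : max 0 (lg p (φ a)) ≤ |lg p (φ a)| := max_le (abs_nonneg _) (le_abs_self _)
    have h6 := ar_nonneg p
    have h7 := hnn K t p
    linarith
  | add P Q hP hQ =>
    obtain ⟨C₁, S₁, h₁, H₁⟩ := hP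
    obtain ⟨C₂, S₂, h₂, H₂⟩ := hQ
    refine ⟨C₁ + C₂ + 1, S₁ ∪ S₂, by positivity, fun K _ _ φ t p => ?_⟩
    rw [e3_add]
    have g0 := pos_add_le p (e3 φ t P) (e3 φ t Q)
    have g1 := H₁ K φ t p
    have g2 := H₂ K φ t p
    have c1 := Gen.cst_mono (Finset.subset_union_left : S₁ ⊆ S₁ ∪ S₂) φ p
    have c2 := Gen.cst_mono (Finset.subset_union_right : S₂ ⊆ S₁ ∪ S₂) φ p
    have c3 := Gen.ar_le_cst (S₁ ∪ S₂) φ p
    have c4 := mul_le_mul_of_nonneg_left c1 h₁
    have c5 := mul_le_mul_of_nonneg_left c2 h₂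
    have c6 := Gen.cst_nonneg (S₁ ∪ S₂) φ p
    have c7 := mul_nonneg h₁ c6
    have c8 := mul_nonneg h₂ c6
    have n0 := hnn K t p
    have n1 := mul_nonneg h₁ n0
    have n2 := mul_nonneg h₂ n0
    have g3 : max (max 0 (lg p (e3 φ t P))) (max 0 (lg p (e3 φ t Q))) ≤
        (C₁ + C₂) * (Gen.cst (S₁ ∪ S₂) φ p + ∑ l, max 0 (lg p (t l))) := by
      apply max_le
      · linarith
      · linarith
    linarith
  | mul_X P i hP =>
    obtain ⟨C₁, S₁, h₁, H₁⟩ := hP
    refine ⟨C₁ + 1, S₁, by positivity, fun K _ _ φ t p => ?_⟩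
    rw [e3_mul, e3_X]
    have g0 := pos_mul_le p (e3 φ t P) (t i)
    have g1 := H₁ K φ t p
    have c6 := Gen.cst_nonneg S₁ φ p
    have g2 : max 0 (lg p (t i)) ≤ ∑ l, max 0 (lg p (t l)) :=
      Finset.single_le_sum (f := fun l => max 0 (lg p (t l))) (fun _ _ => le_max_left _ _)
        (Finset.mem_univ i)
    linarith

/-- bounded height of the values from bounded height of the point -/
theorem mhh_bdd (P : PN n k) (B : ℝ) : ∃ C : ℝ, 0 ≤ C ∧
    ∀ (K : Type) [Field K] [NumberField K] (φ : k →+* K) (t : Fin n → K),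
      (∀ l, hh (t l) ≤ B * dg K) → e3 φ t P ≠ 0 → hh (e3 φ t P) ≤ C * dg K := by
  obtain ⟨C, S, hC, H⟩ := mpoly_up P
  obtain ⟨C', hC', H'⟩ := Gen.plSum_cst S
  refine ⟨C * (C' + n * |B|), by positivity, fun K _ _ φ t ht hP => ?_⟩
  have h5 : 0 < dg K := dg_pos
  have hfs : FS fun p : Pl K => ∑ l, max 0 (lg p (t l)) :=
    FS.sum Finset.univ fun l _ => fs_max' (t l)
  have h1 : plSum K (fun p => max 0 (lg p (e3 φ t P))) ≤
      plSum K (fun p => C * (Gen.cst S φ p + ∑ l, max 0 (lg p (t l)))) :=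
    plSum_mono (fs_max hP) (((Gen.fs_cst S φ).add hfs).smul C) fun p => H K φ t p
  rw [plSum_smul, plSum_add (Gen.fs_cst S φ) hfs,
    plSum_sum Finset.univ fun l _ => fs_max' (t l)] at h1
  have h2 := H' K φ
  have h3 : ∀ l, plSum K (fun p => max 0 (lg p (t l))) ≤ |B| * dg K := fun l =>
    (ht l).trans (mul_le_mul_of_nonneg_right (le_abs_self B) h5.le)
  have h4 : ∑ l, plSum K (fun p => max 0 (lg p (t l))) ≤ n * (|B| * dg K) := by
    refine (Finset.sum_le_sum fun l _ => h3 l).trans (le_of_eq ?_)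
    rw [Finset.sum_const, Finset.card_univ, Fintype.card_fin, nsmul_eq_mul]
  have h6 : hh (e3 φ t P) ≤ C * (plSum K (fun p => Gen.cst S φ p) +
      ∑ l, plSum K (fun p => max 0 (lg p (t l)))) := h1
  refine h6.trans ?_
  rw [mul_assoc]
  refine mul_le_mul_of_nonneg_left ?_ hC
  linarith

end Pool.Agent.Work.MP_7da6af_nt.Cn
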