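import Pool.Agent.Work.MP_7da6af_nt.Cn.Degree
import Pool.Agent.Work.MP_7da6af_nt.Cn.Fixed
import Pool.Agent.Work.MP_7da6af_nt.Cn.C2
import Pool.Agent.Work.MP_7da6af_nt.Cn.LinAlg

/-! # The main theorem for arbitrary curves -/

set_option autoImplicit false

namespace Pool.Agent.Work.MP_7da6af_nt.Cn

open NumberField Polynomial

variable {n : ℕ} [NeZero n] {k : Type} [Field k] [NumberField k]

theorem main (D : Dat n k) : ∃ C : ℝ,
    ∀ (K : Type) [Field K] [NumberField K] (φ : k →+* K) (x z : K) (t : Fin n → K),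
      Pt D K φ x z t → hh x ≤ C * dg K ∧ hh z ≤ C * dg K ∧ ∀ l, hh (t l) ≤ C * dg K := by
  classical
  obtain ⟨B, hB, hc2⟩ := D.c2
  obtain ⟨H, QQ, hQQ, hdeg⟩ := degree D
  have hfm : ∀ Q : ℤ[X], ∃ C : ℝ, 0 ≤ C ∧ (Q ≠ 0 →
      ∀ (K : Type) [Field K] [NumberField K] (φ : k →+* K) (x z : K) (t : Fin n → K),
        Pt D K φ x z t → (∀ l, hh (t l) ≤ B * dg K) → aeval (t 0) Q = 0 →
          hh x ≤ C * dg K) := by
    intro Q
    by_cases hQ : Q = 0
    · exact ⟨0, le_rfl, fun h => absurd hQ h⟩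
    · obtain ⟨C, hC, h⟩ := fixedQ D B Q hQ
      exact ⟨C, hC, fun _ => h⟩
  choose Cf hCf0 hCf using hfm
  obtain ⟨C', hC', huvw⟩ := uvw D B
  set Cx : ℝ := |H| + ∑ Q ∈ QQ, Cf Q with hCx
  have hCx0 : 0 ≤ Cx := add_nonneg (abs_nonneg _) (Finset.sum_nonneg fun f _ => hCf0 f)
  have hx : ∀ (K : Type) [Field K] [NumberField K] (φ : k →+* K) (x z : K) (t : Fin n → K),
      Pt D K φ x z t → hh x ≤ Cx * dg K ∧ ∀ l, hh (t l) ≤ B * dg K := by
    intro K _ _ φ x z t h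
    have hd : 0 < dg K := dg_pos
    obtain ⟨κ, hκ, hκr⟩ := h.real_rel
    have hy := hc2 K φ t h.on κ hκ hκr
    refine ⟨?_, hy⟩
    rcases le_total (H * dg K) (hh x) with h1 | h1
    · obtain ⟨Q, hQ, hQ0⟩ := hdeg K φ x z t h h1
      have h3 := hCf Q (hQQ Q hQ) K φ x z t h hy hQ0
      have h4 : Cf Q ≤ ∑ Q ∈ QQ, Cf Q := Finset.single_le_sum (fun f _ => hCf0 f) hQ
      refine h3.trans (mul_le_mul_of_nonneg_right ?_ hd.le)
      linarith [abs_nonneg H]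
    · refine h1.trans (mul_le_mul_of_nonneg_right ?_ hd.le)
      have : 0 ≤ ∑ Q ∈ QQ, Cf Q := Finset.sum_nonneg fun f _ => hCf0 f
      linarith [le_abs_self H]
  refine ⟨Cx + B + 4 * C' + Cx + 1, fun K _ _ φ x z t h => ?_⟩
  have hd : 0 < dg K := dg_pos
  obtain ⟨h1, h2⟩ := hx K φ x z t h
  obtain ⟨h3, h4, h5⟩ := huvw K φ x z t h h2
  have hlog : Real.log 2 ≤ 1 := by
    have := Real.log_two_lt_d9
    linarith
  refine ⟨?_, ?_, fun l => ?_⟩
  · nlinarith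
  · -- z = (w - u x) / v
    have hz : z = (e3 φ t D.w - e3 φ t D.u * x) / e3 φ t D.v := by
      rw [eq_div_iff h.hv]
      linear_combination h.heq
    have hne : e3 φ t D.w - e3 φ t D.u * x ≠ 0 := by
      rw [← h.heq]
      have : e3 φ t D.u * x + e3 φ t D.v * z - e3 φ t D.u * x = e3 φ t D.v * z := by ring
      rw [this]
      exact mul_ne_zero h.hv h.hz
    have h6 : hh z ≤ hh (e3 φ t D.w - e3 φ t D.u * x) + hh (e3 φ t D.v) := by
      conv_lhs => rw [hz]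
      exact hh_div_le hne h.hv
    have h7 := hh_sub_le h.hw (mul_ne_zero h.hu h.hx) hne
    have h8 := hh_mul_le h.hu h.hx
    nlinarith
  · have h9 := h2 l
    nlinarith

end Pool.Agent.Work.MP_7da6af_nt.Cn
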