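import Pool.Agent.Work.MP_7da6af_nt.Cn.MPoly
import Pool.Agent.Work.MP_7da6af_nt.Line

/-! # Most conjugates are near three subspaces of codimension two -/

set_option autoImplicit false

namespace Pool.Agent.Work.MP_7da6af_nt.Cn

open NumberField

variable {n : ℕ} {k : Type} [Field k] [NumberField k]

/-- the point `(u x / w, v z / w)` is on the line -/
theorem near_line {D : Dat n k} {K : Type} [Field K] [NumberField K] {φ : k →+* K} {x z : K}
    {t : Fin n → K} (h : Pt D K φ x z t) : ∃ x' z' : K, x' ≠ 0 ∧ z' ≠ 0 ∧ x' + z' = 1 ∧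
      (∀ p : Pl K, lg p x' = lg p x + (lg p (e3 φ t D.u) - lg p (e3 φ t D.w))) ∧
      (∀ p : Pl K, lg p z' = lg p z + (lg p (e3 φ t D.v) - lg p (e3 φ t D.w))) ∧
      hh x ≤ hh x' + (hh (e3 φ t D.u) + hh (e3 φ t D.w)) := by
  have hu := h.hu
  have hv := h.hv
  have hw := h.hw
  have hx := h.hx
  have hz := h.hz
  refine ⟨e3 φ t D.u * x * (e3 φ t D.w)⁻¹, e3 φ t D.v * z * (e3 φ t D.w)⁻¹,
    mul_ne_zero (mul_ne_zero hu hx) (inv_ne_zero hw),
    mul_ne_zero (mul_ne_zero hv hz) (inv_ne_zero hw), ?_, ?_, ?_, ?_⟩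
  · rw [← add_mul, h.heq, mul_inv_cancel₀ hw]
  · intro p
    rw [lg_mul p (mul_ne_zero hu hx) (inv_ne_zero hw), lg_mul p hu hx, lg_inv]
    ring
  · intro p
    rw [lg_mul p (mul_ne_zero hv hz) (inv_ne_zero hw), lg_mul p hv hz, lg_inv]
    ring
  · have h1 : x = (e3 φ t D.u * x * (e3 φ t D.w)⁻¹) * (e3 φ t D.w / e3 φ t D.u) := by
      field_simp
    have h2 := hh_mul_le (mul_ne_zero (mul_ne_zero hu hx) (inv_ne_zero hw))
      (div_ne_zero hw hu)
    rw [← h1] at h2
    have h3 := hh_div_le hw hu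
    linarith

/-- the sum of the errors -/
theorem near_err {D : Dat n k} {K : Type} [Field K] [NumberField K] {φ : k →+* K} {x z : K}
    {t : Fin n → K} (h : Pt D K φ x z t) {C : ℝ} (h1 : hh (e3 φ t D.u) ≤ C * dg K)
    (h2 : hh (e3 φ t D.v) ≤ C * dg K) (h3 : hh (e3 φ t D.w) ≤ C * dg K) :
    FS (fun p : Pl K => |lg p (e3 φ t D.u)| + |lg p (e3 φ t D.v)| + 2 * |lg p (e3 φ t D.w)|) ∧
      plSum K (fun p => |lg p (e3 φ t D.u)| + |lg p (e3 φ t D.v)| + 2 * |lg p (e3 φ t D.w)|) ≤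
        8 * C * dg K := by
  have fu := fs_abs h.hu
  have fv := fs_abs h.hv
  have fw := (fs_abs h.hw).smul 2
  refine ⟨(fu.add fv).add fw, ?_⟩
  rw [plSum_add (fu.add fv) fw, plSum_add fu fv, plSum_smul, plSum_abs h.hu, plSum_abs h.hv,
    plSum_abs h.hw]
  linarith

/-- heights of monomials in `x` and `z` -/
theorem near_lower {D : Dat n k} {K : Type} [Field K] [NumberField K] {φ : k →+* K} {x z : K}
    {y : Fin n → K} (h : Pt D K φ x z y) {C : ℝ} (h1 : hh (e3 φ y D.u) ≤ C * dg K)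
    (h2 : hh (e3 φ y D.v) ≤ C * dg K) (h3 : hh (e3 φ y D.w) ≤ C * dg K) (s t : ℝ) :
    (hh x - (16 + 10 * C) * dg K) * max |s| |t| ≤
      plSum K fun p => max 0 (s * lg p x + t * lg p z) := by
  obtain ⟨x', z', hx', hz', he, lx, lz, hb⟩ := near_line h
  obtain ⟨fE, hE⟩ := near_err h h1 h2 h3
  have hl := line_lower hx' hz' he s t
  have hm : 0 ≤ max |s| |t| := le_max_of_le_left (abs_nonneg s)
  have f1 : FS fun p : Pl K => max 0 (s * lg p x' + t * lg p z') :=
    (((fs_lg hx').smul s).add ((fs_lg hz').smul t)).of_imp fun p hp => by rw [hp, max_self]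
  have f2 : FS fun p : Pl K => max 0 (s * lg p x + t * lg p z) :=
    (((fs_lg h.hx).smul s).add ((fs_lg h.hz).smul t)).of_imp fun p hp => by rw [hp, max_self]
  have h4 : plSum K (fun p => max 0 (s * lg p x' + t * lg p z')) ≤
      plSum K (fun p => max 0 (s * lg p x + t * lg p z)) + max |s| |t| * (8 * C * dg K) := by
    refine (plSum_mono f1 (f2.add (fE.smul (max |s| |t|))) fun p => ?_).trans ?_
    · refine max_le ?_ ?_
      · have : 0 ≤ max 0 (s * lg p x + t * lg p z) := le_max_left _ _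
        positivity
      · rw [lx p, lz p]
        have e1 : s * lg p x + t * lg p z ≤ max 0 (s * lg p x + t * lg p z) := le_max_right _ _
        have e2 : s * (lg p (e3 φ y D.u) - lg p (e3 φ y D.w)) ≤
            max |s| |t| * (|lg p (e3 φ y D.u)| + |lg p (e3 φ y D.w)|) := by
          refine (le_abs_self _).trans ?_
          rw [abs_mul]
          exact mul_le_mul (le_max_left _ _) (abs_sub _ _) (abs_nonneg _) hm
        have e3' : t * (lg p (e3 φ y D.v) - lg p (e3 φ y D.w)) ≤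
            max |s| |t| * (|lg p (e3 φ y D.v)| + |lg p (e3 φ y D.w)|) := by
          refine (le_abs_self _).trans ?_
          rw [abs_mul]
          exact mul_le_mul (le_max_right _ _) (abs_sub _ _) (abs_nonneg _) hm
        nlinarith
    · rw [plSum_add f2 (fE.smul (max |s| |t|)), plSum_smul]
      exact add_le_add le_rfl (mul_le_mul_of_nonneg_left hE hm)
  have h5 : (hh x - 2 * C * dg K - 16 * dg K) * max |s| |t| ≤
      (hh x' - 16 * dg K) * max |s| |t| := by
    refine mul_le_mul_of_nonneg_right ?_ hm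
    linarith
  nlinarith

/-- the bad places -/
theorem near_bad {K : Type} [Field K] [NumberField K] {E : Pl K → ℝ} (fE : FS E)
    (hE : ∀ p, 0 ≤ E p) {C : ℝ} (hC : 0 ≤ C) (h : plSum K E ≤ 8 * C * dg K) :
    ∃ bad : Finset (InfinitePlace K), ∑ v ∈ bad, (v.mult : ℝ) ≤ dg K / 10 ∧
      ∀ v ∉ bad, E (Sum.inl v) ≤ 80 * (C + 1) := by
  classical
  refine ⟨Finset.univ.filter fun v => 80 * (C + 1) < E (Sum.inl v), ?_, fun v hv => ?_⟩
  swap
  · simpa using hv
  have hd : 0 < dg K := dg_pos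
  have h1 : ∑ v : InfinitePlace K, (v.mult : ℝ) * E (Sum.inl v) ≤ 8 * C * dg K := by
    rw [plSum_eq fE] at h
    have h2 : 0 ≤ ∑ᶠ v : FinitePlace K, E (Sum.inr v) := finsum_nonneg fun v => hE _
    linarith
  have h3 : ∑ v ∈ Finset.univ.filter (fun v : InfinitePlace K => 80 * (C + 1) < E (Sum.inl v)),
      (v.mult : ℝ) * (80 * (C + 1)) ≤ 8 * C * dg K := by
    refine le_trans ?_ h1
    refine (Finset.sum_le_sum fun v hv => ?_).trans
      (Finset.sum_le_sum_of_subset_of_nonneg (Finset.filter_subset _ _) fun v _ _ =>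
        mul_nonneg (Nat.cast_nonneg _) (hE _))
    exact mul_le_mul_of_nonneg_left (Finset.mem_filter.mp hv).2.le (Nat.cast_nonneg _)
  rw [← Finset.sum_mul] at h3
  have h4 : (0 : ℝ) < 80 * (C + 1) := by positivity
  have h5 : 8 * C * dg K ≤ (dg K / 10) * (80 * (C + 1)) := by nlinarith
  exact le_of_mul_le_mul_right (h3.trans h5) h4

/-- orthonormal pairs `(p, q j)` -/
def DD (n : ℕ) : Set ((Fin n → ℝ) × (Fin 3 → Fin n → ℝ)) :=
  {d | ∑ l, d.1 l ^ 2 = 1 ∧ (∀ j, ∑ l, d.2 j l ^ 2 = 1) ∧ ∀ j, ∑ l, d.1 l * d.2 j l = 0}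

theorem abs_le_of_sq {a : Fin n → ℝ} {r : ℝ} (hr : 0 ≤ r) (h : ∑ l, a l ^ 2 = r ^ 2) (l : Fin n) :
    |a l| ≤ r := by
  have h1 : a l ^ 2 ≤ r ^ 2 := by
    rw [← h]
    exact Finset.single_le_sum (f := fun l => a l ^ 2) (fun _ _ => sq_nonneg _)
      (Finset.mem_univ l)
  exact abs_le_of_sq_le_sq h1 hr

/-- normalisation of a vector -/
theorem exists_unit {a : Fin n → ℝ} (ha : a ≠ 0) : ∃ (r : ℝ) (e : Fin n → ℝ), 0 < r ∧
    ∑ l, e l ^ 2 = 1 ∧ ∀ l, a l = r * e l := by
  have h0 : 0 < ∑ l, a l ^ 2 := by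
    obtain ⟨l, hl⟩ : ∃ l, a l ≠ 0 := by
      by_contra hcon
      push Not at hcon
      exact ha (funext hcon)
    exact Finset.sum_pos' (fun _ _ => sq_nonneg _) ⟨l, Finset.mem_univ l, by positivity⟩
  have h1 : 0 < Real.sqrt (∑ l, a l ^ 2) := Real.sqrt_pos.mpr h0
  refine ⟨Real.sqrt (∑ l, a l ^ 2), fun l => a l / Real.sqrt (∑ l, a l ^ 2), h1, ?_, fun l => ?_⟩
  · simp only [div_pow]
    rw [← Finset.sum_div, Real.sq_sqrt h0.le, div_self h0.ne']
  · rw [mul_div_cancel₀ _ h1.ne']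

theorem near (D : Dat n k) (ε : ℝ) (hε : 0 < ε) : ∃ H : ℝ,
    ∀ (K : Type) [Field K] [NumberField K] (φ : k →+* K) (x z : K) (t : Fin n → K),
      Pt D K φ x z t → H * dg K ≤ hh x →
      ∃ d ∈ DD n, ∃ bad : Finset (InfinitePlace K),
        ∑ v ∈ bad, (v.mult : ℝ) ≤ dg K / 10 ∧
        ∀ v ∉ bad, ∃ j : Fin 3, |∑ l, d.1 l * lg (Sum.inl v) (t l)| ≤ ε ∧
          |∑ l, d.2 j l * lg (Sum.inl v) (t l)| ≤ ε := by
  obtain ⟨B, hB, hy⟩ := D.c2
  obtain ⟨Cu, hCu, hu⟩ := mhh_bdd D.u B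
  obtain ⟨Cv, hCv, hv⟩ := mhh_bdd D.v B
  obtain ⟨Cw, hCw, hw⟩ := mhh_bdd D.w B
  set C : ℝ := Cu + Cv + Cw with hCdef
  have hC : 0 ≤ C := by positivity
  have hl4 : 0 < Real.log 4 := Real.log_pos (by norm_num)
  set Q : ℝ := 2 * Real.log 4 + 80 * (C + 1) with hQdef
  have hQ : 0 < Q := by positivity
  set B' : ℝ := 2 * n * B + 1 with hB'
  have hB'0 : 0 < B' := by positivity
  refine ⟨16 + 10 * C + 1 + B' * Q / ε, fun K _ _ φ x z t h hx => ?_⟩
  have hd : 0 < dg K := dg_pos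
  have hcu : ∀ j, hh (t j) ≤ B * dg K := by
    obtain ⟨κ, hk, hk1⟩ := h.rel
    refine hy K φ t h.on (fun j => (κ j : ℝ)) ?_ fun p => ?_
    · intro h0
      apply hk
      funext j
      simpa using congrFun h0 j
    · rw [← lg_mon h.on.1, hk1, lg_one]
  have h1 : hh (e3 φ t D.u) ≤ C * dg K :=
    (hu K φ t hcu h.hu).trans (mul_le_mul_of_nonneg_right (by linarith) hd.le)
  have h2 : hh (e3 φ t D.v) ≤ C * dg K :=
    (hv K φ t hcu h.hv).trans (mul_le_mul_of_nonneg_right (by linarith) hd.le)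
  have h3 : hh (e3 φ t D.w) ≤ C * dg K :=
    (hw K φ t hcu h.hw).trans (mul_le_mul_of_nonneg_right (by linarith) hd.le)
  have hBQ : 0 ≤ B' * Q / ε := by positivity
  have hx1 : (1 + B' * Q / ε) * dg K ≤ hh x - (16 + 10 * C) * dg K := by linarith
  -- the relation
  obtain ⟨κ, hk, hk1⟩ := h.rel
  obtain ⟨m, hm, ⟨c, hc⟩, ⟨d, hdd⟩⟩ := h.dep
  have lx := fun p : Pl K => lg_of_pow_eq h.on.1 hm hc p
  have lz := fun p : Pl K => lg_of_pow_eq h.on.1 hm hdd p
  have lk : ∀ p : Pl K, ∑ j, (κ j : ℝ) * lg p (t j) = 0 := fun p => by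
    rw [← lg_mon h.on.1, hk1, lg_one]
  obtain ⟨rk, e, hrk, he1, he2⟩ := exists_unit (a := fun j => (κ j : ℝ)) (by
    intro h0
    apply hk
    funext j
    simpa using congrFun h0 j)
  have le : ∀ p : Pl K, ∑ j, e j * lg p (t j) = 0 := by
    intro p
    have h4 := lk p
    have h5 : ∑ j, (κ j : ℝ) * lg p (t j) = rk * ∑ j, e j * lg p (t j) := by
      rw [Finset.mul_sum]
      refine Finset.sum_congr rfl fun j _ => ?_
      rw [he2 j]
      ring
    rw [h5] at h4
    exact (mul_eq_zero.mp h4).resolve_left hrk.ne'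
  -- the linear forms
  let a : Fin 3 → Fin n → ℝ := fun i l => rho i 1 * ((c l : ℝ) / m) - rho i 0 * ((d l : ℝ) / m)
  let b : Fin 3 → Fin n → ℝ := fun i l => a i l - (∑ l', a i l' * e l') * e l
  have hae : ∀ (i : Fin 3) (p : Pl K), ∑ l, a i l * lg p (t l) =
      rho i 1 * lg p x - rho i 0 * lg p z := by
    intro i p
    rw [lx p, lz p, Finset.mul_sum, Finset.mul_sum, ← Finset.sum_sub_distrib]
    refine Finset.sum_congr rfl fun l _ => ?_
    simp only [a]
    ring
  have hbe : ∀ (i : Fin 3) (p : Pl K), ∑ l, b i l * lg p (t l) =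
      rho i 1 * lg p x - rho i 0 * lg p z := by
    intro i p
    rw [← hae i p]
    have h5 : ∑ l, b i l * lg p (t l) = ∑ l, a i l * lg p (t l) -
        (∑ l', a i l' * e l') * ∑ l, e l * lg p (t l) := by
      rw [Finset.mul_sum, ← Finset.sum_sub_distrib]
      refine Finset.sum_congr rfl fun l _ => ?_
      simp only [b]
      ring
    rw [h5, le p, mul_zero, sub_zero]
  have hbo : ∀ i, ∑ l, e l * b i l = 0 := by
    intro i
    have h5 : ∑ l, e l * b i l = ∑ l, a i l * e l - (∑ l', a i l' * e l') * ∑ l, e l ^ 2 := by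
      rw [Finset.mul_sum, ← Finset.sum_sub_distrib]
      refine Finset.sum_congr rfl fun l _ => ?_
      simp only [b]
      ring
    rw [h5, he1, mul_one, sub_self]
  -- the forms are large
  have hrho : ∀ i : Fin 3, 1 ≤ max |rho i 1| |(- rho i 0)| := by
    intro i
    fin_cases i <;> simp [rho]
  have hlow : ∀ (i : Fin 3) (r : ℝ), 0 ≤ r → (∀ l, |b i l| ≤ r) →
      (1 + B' * Q / ε) ≤ B' * r := by
    intro i r hr hbr
    have e1 := near_lower h h1 h2 h3 (rho i 1) (- rho i 0)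
    have e2 : plSum K (fun p => max 0 (rho i 1 * lg p x + (- rho i 0) * lg p z)) ≤
        r * ∑ l, plSum K (fun p => |lg p (t l)|) := by
      rw [← plSum_sum _ fun l _ => fs_abs (h.on.1 l), ← plSum_smul]
      refine plSum_mono ?_ ?_ fun p => ?_
      · exact (((fs_lg h.hx).smul (rho i 1)).add ((fs_lg h.hz).smul (- rho i 0))).of_imp
          fun p hp => by rw [hp, max_self]
      · exact (FS.sum _ fun l _ => fs_abs (h.on.1 l)).smul r
      · have e3 : rho i 1 * lg p x + (- rho i 0) * lg p z = ∑ l, b i l * lg p (t l) := by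
          rw [hbe i p]
          ring
        rw [e3]
        refine max_le (mul_nonneg hr (Finset.sum_nonneg fun l _ => abs_nonneg _)) ?_
        refine (le_abs_self _).trans ((Finset.abs_sum_le_sum_abs _ _).trans ?_)
        rw [Finset.mul_sum]
        refine Finset.sum_le_sum fun l _ => ?_
        rw [abs_mul]
        exact mul_le_mul_of_nonneg_right (hbr l) (abs_nonneg _)
    have e4 : ∑ l, plSum K (fun p => |lg p (t l)|) ≤ 2 * n * B * dg K := by
      calc ∑ l, plSum K (fun p => |lg p (t l)|)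
          ≤ ∑ _l : Fin n, 2 * (B * dg K) := by
            refine Finset.sum_le_sum fun l _ => ?_
            rw [plSum_abs (h.on.1 l)]
            exact mul_le_mul_of_nonneg_left (hcu l) zero_le_two
        _ = 2 * n * B * dg K := by
            rw [Finset.sum_const, Finset.card_univ, Fintype.card_fin, nsmul_eq_mul]
            ring
    have e5 : (1 + B' * Q / ε) * dg K ≤ r * (2 * n * B * dg K) := by
      have e6 : (hh x - (16 + 10 * C) * dg K) * 1 ≤
          (hh x - (16 + 10 * C) * dg K) * max |rho i 1| |(- rho i 0)| := by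
        refine mul_le_mul_of_nonneg_left (hrho i) ?_
        have : 0 ≤ (1 + B' * Q / ε) * dg K := by positivity
        linarith
      have e7 := mul_le_mul_of_nonneg_left e4 hr
      linarith
    have e8 : (1 + B' * Q / ε) * dg K ≤ (B' * r) * dg K := by
      rw [hB']
      nlinarith [mul_nonneg hr hd.le]
    exact le_of_mul_le_mul_right e8 hd
  have hbne : ∀ i, b i ≠ 0 := by
    intro i h0
    have := hlow i 0 le_rfl (fun l => by rw [h0]; simp)
    rw [mul_zero] at this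
    linarith
  choose r q hr hq1 hq2 using fun i => exists_unit (hbne i)
  have hrl : ∀ i, Q ≤ ε * r i := by
    intro i
    have e1 := hlow i (r i) (hr i).le (fun l => by
      rw [hq2 i l, abs_mul, abs_of_pos (hr i)]
      have e2 := abs_le_of_sq (r := 1) zero_le_one (by rw [one_pow]; exact hq1 i) l
      nlinarith [hr i])
    have eg : B' * Q / ε ≤ B' * r i := by linarith
    rw [div_le_iff₀ hε] at eg
    have e4 : B' * Q ≤ B' * (ε * r i) := by linarith
    exact le_of_mul_le_mul_left e4 hB'0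
  obtain ⟨fE, hE⟩ := near_err h h1 h2 h3
  obtain ⟨bad, hbad, hgood⟩ := near_bad fE (fun p => by positivity) hC hE
  obtain ⟨x', z', hx', hz', he, lx', lz', -⟩ := near_line h
  refine ⟨(e, q), ⟨he1, hq1, fun j => ?_⟩, bad, hbad, fun v hv => ?_⟩
  · have h5 : ∑ l, e l * b j l = r j * ∑ l, e l * q j l := by
      rw [Finset.mul_sum]
      refine Finset.sum_congr rfl fun l _ => ?_
      rw [hq2 j l]
      ring
    rw [hbo j] at h5
    exact (mul_eq_zero.mp h5.symm).resolve_left (hr j).ne'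
  obtain ⟨i, s, hs, e1, e2⟩ := line_pt hx' hz' he (Sum.inl v)
  refine ⟨i, ?_, ?_⟩
  · show |∑ l, e l * lg (Sum.inl v) (t l)| ≤ ε
    rw [le, abs_zero]
    exact hε.le
  · show |∑ l, q i l * lg (Sum.inl v) (t l)| ≤ ε
    have ha : ar (Sum.inl v : Pl K) = 1 := rfl
    rw [ha, one_mul] at e1 e2
    have eg := hgood v hv
    have e4 : r i * ∑ l, q i l * lg (Sum.inl v) (t l) =
        rho i 1 * lg (Sum.inl v) x - rho i 0 * lg (Sum.inl v) z := by
      rw [← hbe i, Finset.mul_sum]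
      refine Finset.sum_congr rfl fun l _ => ?_
      rw [hq2 i l]
      ring
    have lxv := lx' (Sum.inl v)
    have lzv := lz' (Sum.inl v)
    have e5 : rho i 1 * lg (Sum.inl v) x - rho i 0 * lg (Sum.inl v) z =
        rho i 1 * ((lg (Sum.inl v) x' - s * rho i 0) -
          (lg (Sum.inl v) (e3 φ t D.u) - lg (Sum.inl v) (e3 φ t D.w))) -
        rho i 0 * ((lg (Sum.inl v) z' - s * rho i 1) -
          (lg (Sum.inl v) (e3 φ t D.v) - lg (Sum.inl v) (e3 φ t D.w))) := by
      rw [lxv, lzv]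
      ring
    have hr1 : |rho i 1| ≤ 1 := by fin_cases i <;> simp [rho]
    have hr0 : |rho i 0| ≤ 1 := by fin_cases i <;> simp [rho]
    have e6 : |rho i 1 * ((lg (Sum.inl v) x' - s * rho i 0) -
          (lg (Sum.inl v) (e3 φ t D.u) - lg (Sum.inl v) (e3 φ t D.w)))| ≤
        1 * (Real.log 4 + (|lg (Sum.inl v) (e3 φ t D.u)| + |lg (Sum.inl v) (e3 φ t D.w)|)) := by
      rw [abs_mul]
      refine mul_le_mul hr1 ?_ (abs_nonneg _) zero_le_one
      exact (abs_sub _ _).trans (add_le_add e1 (abs_sub _ _))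
    have e7 : |rho i 0 * ((lg (Sum.inl v) z' - s * rho i 1) -
          (lg (Sum.inl v) (e3 φ t D.v) - lg (Sum.inl v) (e3 φ t D.w)))| ≤
        1 * (Real.log 4 + (|lg (Sum.inl v) (e3 φ t D.v)| + |lg (Sum.inl v) (e3 φ t D.w)|)) := by
      rw [abs_mul]
      refine mul_le_mul hr0 ?_ (abs_nonneg _) zero_le_one
      exact (abs_sub _ _).trans (add_le_add e2 (abs_sub _ _))
    have e8 : |r i * ∑ l, q i l * lg (Sum.inl v) (t l)| ≤ Q := by
      rw [e4, e5]
      refine (abs_sub _ _).trans ((add_le_add e6 e7).trans ?_)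
      rw [hQdef]
      linarith
    rw [abs_mul, abs_of_pos (hr i)] at e8
    have e9 : r i * |∑ l, q i l * lg (Sum.inl v) (t l)| ≤ r i * ε := by
      have := hrl i
      linarith
    exact le_of_mul_le_mul_left e9 (hr i)

end Pool.Agent.Work.MP_7da6af_nt.Cn
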