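import Pool.Agent.Work.MP_7da6af_nt.Cn.Defs

/-! # The height of a root of an equation with coefficients in `k[ψ]` -/

set_option autoImplicit false

namespace Pool.Agent.Work.MP_7da6af_nt.Cn

open NumberField Polynomial

/-- the value of a finite sum at a place -/
theorem lg_sum_le {K : Type} [Field K] [NumberField K] (p : Pl K) (x : ℕ → K) (M : ℝ) (n : ℕ)
    (hx : ∀ i < n, x i ≠ 0 → lg p (x i) ≤ M) (hs : ∑ i ∈ Finset.range n, x i ≠ 0) :
    lg p (∑ i ∈ Finset.range n, x i) ≤ n * ar p + M := by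
  induction n with
  | zero => exact absurd (by simp) hs
  | succ n ih =>
    have ha := ar_nonneg p
    have ha2 := ar_log_two p
    have hn : (0 : ℝ) ≤ n := Nat.cast_nonneg n
    have hna : 0 ≤ (n : ℝ) * ar p := mul_nonneg hn ha
    have hcast : ((n + 1 : ℕ) : ℝ) * ar p + M = n * ar p + ar p + M := by
      push_cast
      ring
    rw [hcast]
    rw [Finset.sum_range_succ] at hs ⊢
    by_cases h1 : ∑ i ∈ Finset.range n, x i = 0
    · rw [h1, zero_add] at hs ⊢
      have h2 := hx n (Nat.lt_succ_self n) hs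
      linarith
    · have h3 := ih (fun i hi => hx i (by omega)) h1
      by_cases h2 : x n = 0
      · rw [h2, add_zero]
        linarith
      · have h4 := lg_add_le p h1 h2 hs
        have h5 := hx n (Nat.lt_succ_self n) h2
        have h6 : max (lg p (∑ i ∈ Finset.range n, x i)) (lg p (x n)) ≤ n * ar p + M :=
          max_le h3 (by linarith)
        linarith

variable {n : ℕ} {k : Type} [Field k] [NumberField k]

theorem root_height (d b : ℕ) (a : ℕ → k[X]) (ha : ∀ i, (a i).natDegree ≤ b)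
    (hc : ∃ c : ℕ → k[X], ∑ i ∈ Finset.range (d + 1), c i * a i = 1) :
    ∃ C : ℝ, 0 ≤ C ∧
    ∀ (K : Type) [Field K] [NumberField K] (φ : k →+* K) (τ ψ : K), τ ≠ 0 → ψ ≠ 0 →
      ∑ i ∈ Finset.range (d + 1), Gen.ev φ ψ (a i) * τ ^ i = 0 →
      hh τ ≤ b * hh ψ + C * dg K := by
  classical
  obtain ⟨c, hc⟩ := hc
  have h1 : ∀ i, Gen.Upd b (a i) := fun i => Gen.upd_of_natDegree_le (ha i)
  choose A S hA hS using h1
  set T : Finset k := (Finset.range (d + 1)).biUnion S with hT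
  set A' : ℝ := ∑ i ∈ Finset.range (d + 1), A i with hA'
  have hA'0 : 0 ≤ A' := Finset.sum_nonneg fun i _ => hA i
  obtain ⟨B, hB, hTB⟩ := Gen.plSum_cst T
  refine ⟨d + A' * B, by positivity, fun K _ _ φ τ ψ hτ hψ hrel => ?_⟩
  -- the values are bounded
  have hval : ∀ i < d + 1, ∀ p : Pl K, max 0 (lg p (Gen.ev φ ψ (a i))) ≤
      A' * Gen.cst T φ p + b * max 0 (lg p ψ) := by
    intro i hi p
    have hi' : i ∈ Finset.range (d + 1) := Finset.mem_range.mpr hi
    have e1 := hS i K φ ψ p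
    have e2 : A i * Gen.cst (S i) φ p ≤ A' * Gen.cst T φ p :=
      mul_le_mul (Finset.single_le_sum (f := A) (fun j _ => hA j) hi')
        (Gen.cst_mono (Finset.subset_biUnion_of_mem S hi') φ p) (Gen.cst_nonneg _ φ p) hA'0
    linarith
  -- the largest index with a nonzero value
  have hex : ∃ i, i < d + 1 ∧ Gen.ev φ ψ (a i) ≠ 0 := by
    by_contra hcon
    push Not at hcon
    have e1 := congrArg (Gen.ev φ ψ) hc
    have e2 : Gen.ev φ ψ (∑ i ∈ Finset.range (d + 1), c i * a i) = 0 := by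
      unfold Gen.ev
      rw [eval₂_finsetSum]
      refine Finset.sum_eq_zero fun i hi => ?_
      rw [eval₂_mul]
      have e3 := hcon i (Finset.mem_range.mp hi)
      unfold Gen.ev at e3
      rw [e3, mul_zero]
    rw [e2, Gen.ev_one] at e1
    exact zero_ne_one e1
  obtain ⟨i0, ⟨hi0, hi0v⟩, hmax⟩ : ∃ i, (i < d + 1 ∧ Gen.ev φ ψ (a i) ≠ 0) ∧
      ∀ j, j < d + 1 → i < j → Gen.ev φ ψ (a j) = 0 := by
    set F := (Finset.range (d + 1)).filter fun i => Gen.ev φ ψ (a i) ≠ 0 with hF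
    have hne : F.Nonempty := by
      obtain ⟨i, hi, hi'⟩ := hex
      exact ⟨i, Finset.mem_filter.mpr ⟨Finset.mem_range.mpr hi, hi'⟩⟩
    have e1 : F.max' hne < d + 1 ∧ Gen.ev φ ψ (a (F.max' hne)) ≠ 0 := by
      have e0 := Finset.mem_filter.mp (F.max'_mem hne)
      exact ⟨Finset.mem_range.mp e0.1, e0.2⟩
    refine ⟨F.max' hne, e1, fun j hj hlt => ?_⟩
    by_contra hcon
    have e2 := F.le_max' j (Finset.mem_filter.mpr ⟨Finset.mem_range.mpr hj, hcon⟩)
    omega
  -- the relation, truncated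
  have hrel' : ∑ i ∈ Finset.range i0, Gen.ev φ ψ (a i) * τ ^ i +
      Gen.ev φ ψ (a i0) * τ ^ i0 = 0 := by
    rw [← hrel, ← Finset.sum_range_succ]
    refine Finset.sum_subset (fun i hi => Finset.mem_range.mpr ?_) fun i hi hi' => ?_
    · have := Finset.mem_range.mp hi
      omega
    · rw [hmax i (Finset.mem_range.mp hi) (by
        rw [Finset.mem_range] at hi'
        omega), zero_mul]
  have hlead : Gen.ev φ ψ (a i0) * τ ^ i0 ≠ 0 := mul_ne_zero hi0v (pow_ne_zero _ hτ)
  have hsum : ∑ i ∈ Finset.range i0, Gen.ev φ ψ (a i) * τ ^ i =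
      -(Gen.ev φ ψ (a i0) * τ ^ i0) := eq_neg_of_add_eq_zero_left hrel'
  have hsum0 : ∑ i ∈ Finset.range i0, Gen.ev φ ψ (a i) * τ ^ i ≠ 0 := by
    rw [hsum]
    exact neg_ne_zero.mpr hlead
  -- the local bound
  have hloc : ∀ p : Pl K, max 0 (lg p τ) ≤
      d * ar p + (A' * Gen.cst T φ p + b * max 0 (lg p ψ)) + (-1) * lg p (Gen.ev φ ψ (a i0)) := by
    intro p
    have har := ar_nonneg p
    have hda : 0 ≤ (d : ℝ) * ar p := mul_nonneg (Nat.cast_nonneg d) har
    set M : ℝ := A' * Gen.cst T φ p + b * max 0 (lg p ψ) with hM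
    have hv0 : lg p (Gen.ev φ ψ (a i0)) ≤ M := (le_max_right _ _).trans (hval i0 hi0 p)
    rcases le_or_gt (lg p τ) 0 with h | h
    · rw [max_eq_left h]
      linarith
    · rw [max_eq_right h.le]
      have e1 : lg p (∑ i ∈ Finset.range i0, Gen.ev φ ψ (a i) * τ ^ i) ≤
          i0 * ar p + (M + ((i0 : ℝ) - 1) * lg p τ) := by
        refine lg_sum_le p _ _ i0 (fun i hi hne => ?_) hsum0
        have hne' : Gen.ev φ ψ (a i) ≠ 0 := left_ne_zero_of_mul hne
        rw [lg_mul p hne' (pow_ne_zero _ hτ), lg_pow]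
        have e2 : lg p (Gen.ev φ ψ (a i)) ≤ M := (le_max_right _ _).trans (hval i (by omega) p)
        have e3 : (i : ℝ) ≤ (i0 : ℝ) - 1 := by
          have : ((i + 1 : ℕ) : ℝ) ≤ i0 := by exact_mod_cast hi
          push_cast at this
          linarith
        have e4 := mul_le_mul_of_nonneg_right e3 h.le
        linarith
      rw [hsum, lg_neg, lg_mul p hi0v (pow_ne_zero _ hτ), lg_pow] at e1
      have e5 : (i0 : ℝ) * ar p ≤ d * ar p :=
        mul_le_mul_of_nonneg_right (by exact_mod_cast (by omega : i0 ≤ d)) har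
      linarith
  -- sum over the places
  have f1 : FS fun p : Pl K => d * ar p := fs_ar.smul d
  have f2 : FS fun p : Pl K => A' * Gen.cst T φ p := (Gen.fs_cst T φ).smul A'
  have f3 : FS fun p : Pl K => b * max 0 (lg p ψ) := (fs_max hψ).smul b
  have f4 : FS fun p : Pl K => (-1) * lg p (Gen.ev φ ψ (a i0)) := (fs_lg hi0v).smul (-1)
  have h2 : hh τ ≤ plSum K (fun p => d * ar p + (A' * Gen.cst T φ p + b * max 0 (lg p ψ)) +
      (-1) * lg p (Gen.ev φ ψ (a i0))) :=
    plSum_mono (fs_max hτ) ((f1.add (f2.add f3)).add f4) hloc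
  rw [plSum_add (f1.add (f2.add f3)) f4, plSum_add f1 (f2.add f3), plSum_add f2 f3, plSum_smul,
    plSum_smul, plSum_smul, plSum_smul, plSum_ar, plSum_lg hi0v] at h2
  have h3 := mul_le_mul_of_nonneg_left (hTB K φ) hA'0
  have h4 : plSum K (fun p => max 0 (lg p ψ)) = hh ψ := rfl
  rw [h4] at h2
  linarith

end Pool.Agent.Work.MP_7da6af_nt.Cn
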