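import Pool.Agent.Work.MP_7da6af_nt.Cn.TDefs
import Pool.Agent.Work.MP_7da6af_nt.AnomTr

/-! # Dimensions of subvarieties of a torus -/

set_option autoImplicit false

namespace Pool.Agent.Work.MP_7da6af_nt.Cn

open TopologicalSpace

variable {N : ℕ}

theorem co_ne (q : Tor N) (i : Fin N) : q.co i ≠ 0 := Units.ne_zero _

theorem tor_ext {p q : (Tor N)} (h : ∀ i, p.co i = q.co i) : p = q := by
  have : p.fn = q := by
    funext i
    exact Units.ext (h i)
  exact this

theorem closed_zLoc (I : Set (MvPolynomial (Fin N) Om)) : IsClosed (zLoc I) :=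
  (isClosed_iff _).mpr ⟨I, rfl⟩

theorem closed_singleton (P : Tor N) : IsClosed ({P} : Set (Tor N)) := by
  rw [isClosed_iff]
  refine ⟨Set.range fun i => MvPolynomial.X i - MvPolynomial.C (P.co i), ?_⟩
  ext q
  simp only [zLoc, Set.forall_mem_range, map_sub, MvPolynomial.eval_X, MvPolynomial.eval_C,
    Set.mem_ofPred_eq, Set.mem_singleton_iff, sub_eq_zero]
  constructor
  · exact fun h => tor_ext h
  · rintro rfl i
    rfl

/-- the dimension of a point -/
theorem dimT_singleton (P : Tor N) : dimT {P} = 0 := by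
  let a : {Z : IrreducibleCloseds (Tor N) // (Z : Set (Tor N)) ⊆ {P}} :=
    ⟨⟨{P}, isIrreducible_singleton, closed_singleton P⟩, Set.Subset.rfl⟩
  have hsub : Subsingleton {Z : IrreducibleCloseds (Tor N) // (Z : Set (Tor N)) ⊆ {P}} := by
    constructor
    have h1 : ∀ Z : {Z : IrreducibleCloseds (Tor N) // (Z : Set (Tor N)) ⊆ {P}},
        (Z.1 : Set (Tor N)) = {P} := by
      rintro ⟨Z, hZ⟩
      exact (Set.subset_singleton_iff_eq.mp hZ).resolve_left Z.isIrreducible'.nonempty.ne_empty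
    intro Z Z'
    apply Subtype.ext
    apply SetLike.coe_injective
    rw [h1, h1]
  have hne : Nonempty {Z : IrreducibleCloseds (Tor N) // (Z : Set (Tor N)) ⊆ {P}} := ⟨a⟩
  exact le_antisymm Order.krullDim_nonpos_of_subsingleton Order.krullDim_nonneg

/-- a variety larger than a point has positive dimension -/
theorem one_le_dimT {Y : Set (Tor N)} (h1 : IsIrreducible Y) (h2 : IsClosed Y) {P : (Tor N)} (hP : P ∈ Y)
    (hne : Y ≠ {P}) : 1 ≤ dimT Y := by
  unfold dimT
  rw [Order.one_le_krullDim_iff]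
  refine ⟨⟨⟨{P}, isIrreducible_singleton, closed_singleton P⟩, by simpa using hP⟩,
    ⟨⟨Y, h1, h2⟩, Set.Subset.rfl⟩, ?_⟩
  rw [Subtype.mk_lt_mk]
  refine lt_of_le_of_ne ?_ ?_
  · intro q hq
    have : q = P := hq
    rw [this]
    exact hP
  · intro h
    apply hne
    have := congrArg (fun Z : IrreducibleCloseds (Tor N) => (Z : Set (Tor N))) h
    exact this.symm

/-- a chain of length two -/
theorem two_le_dimT {A B C Y : Set (Tor N)} (hA : IsIrreducible A) (hA' : IsClosed A)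
    (hB : IsIrreducible B) (hB' : IsClosed B) (hC : IsIrreducible C) (hC' : IsClosed C)
    (hAB : A ⊂ B) (hBC : B ⊂ C) (hY : C ⊆ Y) : 2 ≤ dimT Y := by
  unfold dimT
  rw [show (2 : WithBot ℕ∞) = ((2 : ℕ) : WithBot ℕ∞) from rfl, Order.le_krullDim_iff]
  let a : {Z : IrreducibleCloseds (Tor N) // (Z : Set (Tor N)) ⊆ Y} :=
    ⟨⟨A, hA, hA'⟩, hAB.1.trans (hBC.1.trans hY)⟩
  let b : {Z : IrreducibleCloseds (Tor N) // (Z : Set (Tor N)) ⊆ Y} := ⟨⟨B, hB, hB'⟩, hBC.1.trans hY⟩
  let c : {Z : IrreducibleCloseds (Tor N) // (Z : Set (Tor N)) ⊆ Y} := ⟨⟨C, hC, hC'⟩, hY⟩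
  have h1 : a < b := hAB
  have h2 : b < c := hBC
  refine ⟨⟨2, ![a, b, c], ?_⟩, rfl⟩
  intro i
  fin_cases i
  · exact h1
  · exact h2

/-- every irreducible closed subset is contained in a component -/
theorem exists_component {Z W : Set (Tor N)} (h1 : IsIrreducible Z) (h2 : IsClosed Z)
    (hW : IsClosed W) (hZW : Z ⊆ W) : ∃ Y, IsComponent Y W ∧ Z ⊆ Y := by
  obtain ⟨m, hm1, hm2⟩ := zorn_subset_nonempty {Z : Set (Tor N) | IsIrreducible Z ∧ IsClosed Z ∧ Z ⊆ W}
    (by
      intro c hc hch hne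
      refine ⟨closure (⋃₀ c), ⟨?_, isClosed_closure, ?_⟩, fun s hs => ?_⟩
      · rw [isIrreducible_iff_closure]
        obtain ⟨s, hs⟩ := hne
        refine ⟨(hc hs).1.nonempty.mono (Set.subset_sUnion_of_mem hs), ?_⟩
        rw [isPreirreducible_iff_isClosed_union_isClosed]
        intro A B hA hB hAB
        by_contra hcon
        push Not at hcon
        obtain ⟨k1, k2⟩ := hcon
        rw [Set.sUnion_subset_iff] at k1 k2
        push Not at k1 k2
        obtain ⟨s1, hs1, k1⟩ := k1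
        obtain ⟨s2, hs2, k2⟩ := k2
        obtain ⟨s3, hs3, i1, i2⟩ : ∃ s3 ∈ c, s1 ⊆ s3 ∧ s2 ⊆ s3 := by
          rcases hch.total hs1 hs2 with h | h
          · exact ⟨s2, hs2, h, Set.Subset.rfl⟩
          · exact ⟨s1, hs1, Set.Subset.rfl, h⟩
        rcases isPreirreducible_iff_isClosed_union_isClosed.mp (hc hs3).1.isPreirreducible A B hA hB
          ((Set.subset_sUnion_of_mem hs3).trans hAB) with h | h
        · exact k1 (i1.trans h)
        · exact k2 (i2.trans h)
      · exact closure_minimal (Set.sUnion_subset fun s hs => (hc hs).2.2) hW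
      · exact (Set.subset_sUnion_of_mem hs).trans subset_closure) Z ⟨h1, h2, hZW⟩
  exact ⟨m, hm2, hm1⟩

/-- the ideal of a set -/
def vI (Z : Set (Tor N)) : Ideal (MvPolynomial (Fin N) Om) where
  carrier := {f | ∀ q ∈ Z, MvPolynomial.eval q.co f = 0}
  zero_mem' := fun q _ => map_zero _
  add_mem' := by
    intro f g hf hg q hq
    rw [map_add, hf q hq, hg q hq, add_zero]
  smul_mem' := by
    intro c f hf q hq
    rw [smul_eq_mul, map_mul, hf q hq, mul_zero]

theorem mem_vI {Z : Set (Tor N)} {f : MvPolynomial (Fin N) Om} :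
    f ∈ vI Z ↔ ∀ q ∈ Z, MvPolynomial.eval q.co f = 0 := Iff.rfl

theorem vI_mono {Z Z' : Set (Tor N)} (h : Z ⊆ Z') : vI Z' ≤ vI Z := fun _ hf q hq => hf q (h hq)

theorem vI_prime {Z : Set (Tor N)} (h : IsIrreducible Z) : (vI Z).IsPrime := by
  constructor
  · intro h0
    obtain ⟨q, hq⟩ := h.nonempty
    have h1 : (1 : MvPolynomial (Fin N) Om) ∈ vI Z := by rw [h0]; exact Submodule.mem_top
    have := h1 q hq
    rw [map_one] at this
    exact one_ne_zero this
  · intro f g hfg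
    have hsub : Z ⊆ zLoc {f} ∪ zLoc {g} := by
      intro q hq
      have := hfg q hq
      rw [map_mul] at this
      rcases mul_eq_zero.mp this with h1 | h1
      · left
        intro f' hf'
        rw [Set.mem_singleton_iff.mp hf']
        exact h1
      · right
        intro f' hf'
        rw [Set.mem_singleton_iff.mp hf']
        exact h1
    rcases isPreirreducible_iff_isClosed_union_isClosed.mp h.isPreirreducible _ _ (closed_zLoc {f})
      (closed_zLoc {g}) hsub with h1 | h1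
    · left
      exact fun q hq => h1 hq f rfl
    · right
      exact fun q hq => h1 hq g rfl

theorem exists_sep {Z Z' : Set (Tor N)} (hZ : IsClosed Z) (h : ¬ Z' ⊆ Z) :
    ∃ f, f ∈ vI Z ∧ f ∉ vI Z' := by
  obtain ⟨I, rfl⟩ := (isClosed_iff Z).mp hZ
  rw [Set.not_subset] at h
  obtain ⟨q, hq, hq'⟩ := h
  simp only [zLoc, Set.mem_ofPred_eq, not_forall] at hq'
  obtain ⟨f, hf, hfq⟩ := hq'
  exact ⟨f, fun p hp => hp f hf, fun hcon => hfq (hcon q hq)⟩

/-- the dimension is bounded by the dimension of the coordinate ring -/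
theorem dimT_le (V : Set (Tor N)) : dimT V ≤ ringKrullDim (MvPolynomial (Fin N) Om ⧸ vI V) := by
  unfold dimT ringKrullDim
  rw [← Order.krullDim_orderDual (α := PrimeSpectrum _)]
  have hsurj : Function.Surjective (Ideal.Quotient.mk (vI V)) := Ideal.Quotient.mk_surjective
  have hker : ∀ Z : {Z : IrreducibleCloseds (Tor N) // (Z : Set (Tor N)) ⊆ V},
      RingHom.ker (Ideal.Quotient.mk (vI V)) ≤ vI (Z.1 : Set (Tor N)) := by
    intro Z
    rw [Ideal.mk_ker]
    exact vI_mono Z.2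
  have hprime : ∀ Z : {Z : IrreducibleCloseds (Tor N) // (Z : Set (Tor N)) ⊆ V},
      (Ideal.map (Ideal.Quotient.mk (vI V)) (vI (Z.1 : Set (Tor N)))).IsPrime := by
    intro Z
    have := vI_prime Z.1.isIrreducible'
    exact Ideal.map_isPrime_of_surjective hsurj (hker Z)
  refine Order.krullDim_le_of_strictMono (fun Z => OrderDual.toDual
    (⟨Ideal.map (Ideal.Quotient.mk (vI V)) (vI (Z.1 : Set (Tor N))), hprime Z⟩ : PrimeSpectrum _)) ?_
  intro Z Z' hZZ
  rw [OrderDual.toDual_lt_toDual, ← PrimeSpectrum.asIdeal_lt_asIdeal]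
  have h1 : (Z.1 : Set (Tor N)) ⊆ Z'.1 := hZZ.le
  have h2 : ¬ (Z'.1 : Set (Tor N)) ⊆ Z.1 := fun h => hZZ.not_ge h
  refine lt_of_le_of_ne (Ideal.map_mono (vI_mono h1)) ?_
  intro heq0
  have heq : Ideal.map (Ideal.Quotient.mk (vI V)) (vI (Z'.1 : Set (Tor N))) =
    Ideal.map (Ideal.Quotient.mk (vI V)) (vI (Z.1 : Set (Tor N))) := heq0
  obtain ⟨f, hf, hf'⟩ := exists_sep Z.1.isClosed' h2
  apply hf'
  have h3 : Ideal.Quotient.mk (vI V) f ∈ Ideal.map (Ideal.Quotient.mk (vI V)) (vI (Z'.1 : Set (Tor N))) := by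
    rw [heq]
    exact Ideal.mem_map_of_mem _ hf
  obtain ⟨f', hf1, hf2⟩ := (Ideal.mem_map_iff_of_surjective _ hsurj).mp h3
  have h4 : f - f' ∈ vI V := by
    rw [← Ideal.Quotient.eq]
    exact hf2.symm
  have h5 : f - f' ∈ vI (Z'.1 : Set (Tor N)) := vI_mono Z'.2 h4
  have := Ideal.add_mem _ h5 hf1
  rwa [sub_add_cancel] at this

end Pool.Agent.Work.MP_7da6af_nt.Cn
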