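import Pool.Agent.Work.MP_7da6af_nt.PlaneComp
import Pool.Agent.Work.MP_7da6af_nt.Cn.TLat

/-! # Plane curves in a fibre have no isolated points, in any dimension -/

set_option autoImplicit false

namespace Pool.Agent.Work.MP_7da6af_nt.Cn

open MvPolynomial
open Pool.Agent.Work.MP_7da6af_nt.Anom (plane_dvd)

/-- two elements put in front of a vector -/
def jn {α : Type} {n : ℕ} (a b : α) (t : Fin n → α) : Fin (n + 2) → α :=
  Fin.cons a (Fin.cons b t : Fin (n + 1) → α)

theorem jn_zero {α : Type} {n : ℕ} (a b : α) (t : Fin n → α) : jn a b t 0 = a := rfl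

theorem jn_one {α : Type} {n : ℕ} (a b : α) (t : Fin n → α) : jn a b t 1 = b := rfl

theorem jn_ss {α : Type} {n : ℕ} (a b : α) (t : Fin n → α) (l : Fin n) :
    jn a b t l.succ.succ = t l := rfl

theorem fin_ss {n : ℕ} {p : Fin (n + 2) → Prop} (h0 : p 0) (h1 : p 1)
    (h : ∀ l : Fin n, p l.succ.succ) (i : Fin (n + 2)) : p i := by
  refine Fin.cases h0 (fun i => ?_) i
  exact Fin.cases h1 h i

theorem jn_ext {α : Type} {n : ℕ} {a b : α} {t : Fin n → α} {f : Fin (n + 2) → α} (h0 : f 0 = a)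
    (h1 : f 1 = b) (h : ∀ l : Fin n, f l.succ.succ = t l) : f = jn a b t :=
  funext (fin_ss h0 h1 h)

variable {n : ℕ}

/-- the last coordinates -/
def tt (q : Tor (n + 2)) : Fin n → Om := fun l => q.co l.succ.succ

/-- restriction of a polynomial to a fibre -/
noncomputable def sp (P : Tor (n + 2)) :
    MvPolynomial (Fin (n + 2)) Om →ₐ[Om] MvPolynomial (Fin 2) Om :=
  aeval (jn (X 0) (X 1) fun l => C (tt P l))

theorem eval_sp (P : Tor (n + 2)) (A : MvPolynomial (Fin (n + 2)) Om) (a b : Om) :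
    eval ![a, b] (sp P A) = eval (jn a b (tt P)) A := by
  have h : (eval ![a, b]).comp
      (sp P : MvPolynomial (Fin (n + 2)) Om →+* MvPolynomial (Fin 2) Om) =
      eval (jn a b (tt P)) := by
    apply MvPolynomial.ringHom_ext
    · intro c
      simp
    · refine fin_ss ?_ ?_ (fun l => ?_)
      · simp [sp, jn_zero]
      · simp [sp, jn_one]
      · simp [sp, jn_ss]
  exact RingHom.congr_fun h A

theorem co_eq {P q : Tor (n + 2)} (h : tt q = tt P) : q.co = jn (q.co 0) (q.co 1) (tt P) :=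
  jn_ext rfl rfl fun l => congrFun h l

/-- the point of the fibre with given first two coordinates -/
theorem exists_fpt (P : Tor (n + 2)) {a b : Om} (ha : a ≠ 0) (hb : b ≠ 0) :
    ∃ q : Tor (n + 2), q.co 0 = a ∧ q.co 1 = b ∧ tt q = tt P :=
  ⟨(show Tor (n + 2) from jn (Units.mk0 a ha) (Units.mk0 b hb) fun l => P.fn l.succ.succ),
    rfl, rfl, rfl⟩

/-- A zero `P` of a polynomial in the first two coordinates lies on an irreducible closed set of
positive dimension consisting of zeros with the same last three coordinates. -/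
theorem plane_comp (P : Tor (n + 2)) (f : MvPolynomial (Fin 2) Om)
    (hf : eval ![P.co 0, P.co 1] f = 0) :
    ∃ Z : Set (Tor (n + 2)), IsIrreducible Z ∧ IsClosed Z ∧ P ∈ Z ∧ Z ≠ {P} ∧
      ∀ q ∈ Z, tt q = tt P ∧ eval ![q.co 0, q.co 1] f = 0 := by
  classical
  have hP0 : P.co 0 ≠ 0 := Units.ne_zero _
  have hP1 : P.co 1 ≠ 0 := Units.ne_zero _
  -- an irreducible factor
  obtain ⟨f1, hf1, hf10, hdvd⟩ : ∃ f1 : MvPolynomial (Fin 2) Om, Irreducible f1 ∧
      eval ![P.co 0, P.co 1] f1 = 0 ∧ f1 ∣ f := by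
    have key : ∀ g : MvPolynomial (Fin 2) Om, g ≠ 0 → eval ![P.co 0, P.co 1] g = 0 →
        ∃ f1 : MvPolynomial (Fin 2) Om, Irreducible f1 ∧ eval ![P.co 0, P.co 1] f1 = 0 ∧
          f1 ∣ g := by
      intro g hg0
      induction g using WfDvdMonoid.induction_on_irreducible with
      | zero => exact absurd rfl hg0
      | unit u hu =>
        intro h
        exfalso
        have := hu.map (eval ![P.co 0, P.co 1])
        rw [h] at this
        exact not_isUnit_zero this
      | mul a i ha hi ih =>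
        intro h
        rw [map_mul] at h
        rcases mul_eq_zero.1 h with h | h
        · exact ⟨i, hi, h, Dvd.intro _ rfl⟩
        · obtain ⟨f1, h1, h2, h3⟩ := ih ha h
          exact ⟨f1, h1, h2, h3.mul_left _⟩
    by_cases h0 : f = 0
    · obtain ⟨f1, h1, h2, -⟩ := key (X 0 - C (P.co 0)) (by
        intro h
        have := congrArg (eval ![P.co 0 + 1, P.co 1]) h
        simp at this) (by simp)
      exact ⟨f1, h1, h2, by rw [h0]; exact dvd_zero _⟩
    · exact key f h0 hf
  set Z : Set (Tor (n + 2)) := {q | tt q = tt P ∧ eval ![q.co 0, q.co 1] f1 = 0} with hZ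
  have hPZ : P ∈ Z := ⟨rfl, hf10⟩
  have hdv : ∀ A : MvPolynomial (Fin (n + 2)) Om, (∀ q ∈ Z, eval q.co A = 0) → f1 ∣ sp P A := by
    intro A hA
    refine plane_dvd hf1 hP0 hP1 hf10 _ ?_
    intro a b ha hb hab
    obtain ⟨q, hq0, hq1, hq⟩ := exists_fpt P ha hb
    have := hA q ⟨hq, by rw [hq0, hq1]; exact hab⟩
    rw [co_eq hq, hq0, hq1] at this
    rw [eval_sp]; exact this
  have hvd : ∀ A : MvPolynomial (Fin (n + 2)) Om, f1 ∣ sp P A → ∀ q ∈ Z, eval q.co A = 0 := by
    rintro A ⟨c, hc⟩ q ⟨hq, hq2⟩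
    rw [co_eq hq, ← eval_sp, hc, map_mul, hq2, zero_mul]
  refine ⟨Z, ⟨⟨P, hPZ⟩, ?_⟩, ?_, hPZ, ?_, ?_⟩
  · rw [isPreirreducible_iff_isClosed_union_isClosed]
    intro A B hA hB hAB
    by_contra hcon
    push Not at hcon
    obtain ⟨h1, h2⟩ := hcon
    obtain ⟨I, rfl⟩ := (isClosed_iff A).mp hA
    obtain ⟨J, rfl⟩ := (isClosed_iff B).mp hB
    rw [Set.not_subset] at h1 h2
    obtain ⟨q1, hq1, hq1'⟩ := h1
    obtain ⟨q2, hq2, hq2'⟩ := h2
    simp only [zLoc, Set.mem_ofPred_eq, not_forall] at hq1' hq2'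
    obtain ⟨g1, hg1, hgq1⟩ := hq1'
    obtain ⟨g2, hg2, hgq2⟩ := hq2'
    have h3 : f1 ∣ sp P (g1 * g2) := by
      apply hdv
      intro q hq
      rw [map_mul]
      rcases hAB hq with h | h
      · rw [h g1 hg1, zero_mul]
      · rw [h g2 hg2, mul_zero]
    rw [map_mul] at h3
    rcases hf1.prime.dvd_or_dvd h3 with h4 | h4
    · exact hgq1 (hvd _ h4 _ hq1)
    · exact hgq2 (hvd _ h4 _ hq2)
  · rw [isClosed_iff]
    refine ⟨(Set.range fun l : Fin n => X l.succ.succ - C (tt P l)) ∪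
      {rename ![0, 1] f1}, ?_⟩
    ext q
    have h5 : eval q.co (rename ![0, 1] f1) = eval ![q.co 0, q.co 1] f1 := by
      rw [eval_rename]
      congr 1
      congr 1
      funext i
      fin_cases i <;> rfl
    simp only [zLoc, Set.mem_ofPred_eq, Set.mem_union, Set.mem_range, Set.mem_singleton_iff, hZ]
    constructor
    · intro h
      refine ⟨funext fun l => ?_, ?_⟩
      · have := h _ (Or.inl ⟨l, rfl⟩)
        rw [map_sub, eval_X, eval_C, sub_eq_zero] at this
        exact this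
      · rw [← h5]; exact h _ (Or.inr rfl)
    · rintro ⟨h6, h7⟩ g (⟨l, rfl⟩ | rfl)
      · rw [map_sub, eval_X, eval_C, sub_eq_zero]
        exact congrFun h6 l
      · rw [h5]; exact h7
  · intro hZP
    have hq : ∀ a b : Om, a ≠ 0 → b ≠ 0 → eval ![a, b] f1 = 0 → a = P.co 0 ∧ b = P.co 1 := by
      intro a b ha hb hab
      obtain ⟨q, hq0, hq1, hq⟩ := exists_fpt P ha hb
      have : q ∈ Z := ⟨hq, by rw [hq0, hq1]; exact hab⟩
      rw [hZP, Set.mem_singleton_iff] at this
      rw [← hq0, ← hq1, this]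
      exact ⟨rfl, rfl⟩
    have hd0 : f1 ∣ X 0 - C (P.co 0) := by
      refine plane_dvd hf1 hP0 hP1 hf10 _ ?_
      intro a b ha hb hab
      simp [(hq a b ha hb hab).1]
    have hd1 : f1 ∣ X 1 - C (P.co 1) := by
      refine plane_dvd hf1 hP0 hP1 hf10 _ ?_
      intro a b ha hb hab
      simp [(hq a b ha hb hab).2]
    have htd : f1.totalDegree ≠ 0 := by
      intro h
      rw [totalDegree_eq_zero_iff_eq_C] at h
      rw [h, eval_C] at hf10
      rw [hf10, C_0] at h
      exact hf1.ne_zero h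
    have hx : ∀ (i : Fin 2) (c : Om), (X i - C c : MvPolynomial (Fin 2) Om) ≠ 0 := by
      intro i c h
      have := congrArg (eval fun _ => c + 1) h
      simp at this
    have htx : ∀ (i : Fin 2) (c : Om), (X i - C c : MvPolynomial (Fin 2) Om).totalDegree ≤ 1 := by
      intro i c
      refine (totalDegree_sub_C_le _ _).trans ?_
      exact (totalDegree_X _).le
    have hcst : ∀ (i : Fin 2) (c : Om), f1 ∣ X i - C c → ∃ u : Om, X i - C c = f1 * C u := by
      rintro i c ⟨u, hu⟩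
      have hu0 : u ≠ 0 := by
        rintro rfl
        rw [mul_zero] at hu
        exact hx i c hu
      have h6 := totalDegree_mul_of_isDomain hf1.ne_zero hu0
      rw [← hu] at h6
      have h7 := htx i c
      have h8 : u.totalDegree = 0 := by omega
      rw [totalDegree_eq_zero_iff_eq_C] at h8
      exact ⟨_, by rw [hu]; nth_rewrite 1 [h8]; rfl⟩
    obtain ⟨u, hu⟩ := hcst 0 _ hd0
    obtain ⟨v, hv⟩ := hcst 1 _ hd1
    have h9 : (X 0 - C (P.co 0)) * C v = (X 1 - C (P.co 1)) * (C u : MvPolynomial (Fin 2) Om) := by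
      rw [hu, hv]; ring
    have h10 := congrArg (eval ![P.co 0, P.co 1 + 1]) h9
    simp at h10
    rw [← h10, C_0, mul_zero] at hu
    exact hx _ _ hu
  · rintro q ⟨hq1, hq2⟩
    refine ⟨hq1, ?_⟩
    obtain ⟨c, rfl⟩ := hdvd
    rw [map_mul, hq2, zero_mul]

end Pool.Agent.Work.MP_7da6af_nt.Cn
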