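import Pool.Agent.Work.MP_7da6af_nt.Cn.TPlane
import Pool.Agent.Work.MP_7da6af_nt.Cn.TDim
import Pool.Agent.Work.MP_7da6af_nt.Cn.Rel

/-! # Surfaces in tori: maximal points, points of curves -/

set_option autoImplicit false

namespace Pool.Agent.Work.MP_7da6af_nt.Cn

open TopologicalSpace

section

variable {N : ℕ}

theorem closed_coset (ζ : Tor N) (Λ : Submodule ℤ (Fin N → ℤ)) : IsClosed (coset ζ Λ) := by
  have h1 : coset ζ Λ = ⋂ m ∈ Λ, zLoc {(∏ i, (MvPolynomial.X i : MvPolynomial (Fin N) Om) ^ (m i).toNat) -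
      MvPolynomial.C ((ζ.chr m : Omˣ) : Om) * ∏ i, MvPolynomial.X i ^ (-m i).toNat} := by
    ext q
    simp only [coset, Set.mem_ofPred_eq, Set.mem_iInter, zLoc, Set.mem_singleton_iff, forall_eq,
      map_sub, map_mul, map_prod, map_pow, MvPolynomial.eval_X, MvPolynomial.eval_C]
    refine forall₂_congr fun m _ => ?_
    have h2 : (∏ i, q.co i ^ (m i).toNat) = ((q.chr m : Omˣ) : Om) * ∏ i, q.co i ^ (-m i).toNat := by
      rw [chr_eq, ← Finset.prod_mul_distrib]
      refine Finset.prod_congr rfl fun i _ => ?_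
      rw [← zpow_natCast, ← zpow_natCast, ← zpow_add₀ (co_ne q i)]
      congr 1
      omega
    have h3 : (∏ i, q.co i ^ (-m i).toNat) ≠ 0 :=
      Finset.prod_ne_zero_iff.mpr fun i _ => pow_ne_zero _ (co_ne q i)
    rw [h2, ← sub_mul, mul_eq_zero]
    constructor
    · intro h
      left
      rw [h, sub_self]
    · rintro (h | h)
      · exact Units.ext (sub_eq_zero.mp h)
      · exact absurd h h3
  rw [h1]
  exact isClosed_biInter fun m _ => closed_zLoc _

/-- A maximal point lies on no irreducible closed subset of positive dimension which is contained in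
a subgroup of codimension two. -/
theorem no_lattice {V Z : Set (Tor N)} (hcl : IsClosed V) (hdim : dimT V = 2) {P : Tor N}
    (hmax : IsMaxPoint V P) (hZi : IsIrreducible Z) (hZc : IsClosed Z) (hPZ : P ∈ Z)
    (hZne : Z ≠ {P}) (hZV : Z ⊆ V) (Λ : Submodule ℤ (Fin N → ℤ)) (hr : 2 ≤ Module.finrank ℤ Λ)
    (hsub : ∀ q ∈ Z, ∀ m ∈ Λ, q.chr m = 1) : False := by
  have hW : IsClosed (V ∩ coset 1 Λ) := hcl.inter (closed_coset 1 Λ)
  have hfW : Z ⊆ V ∩ coset 1 Λ := fun q hq => ⟨hZV hq, (mem_coset_one Λ q).mpr (hsub q hq)⟩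
  obtain ⟨Y, hY, hfY⟩ := exists_component hZi hZc hW hfW
  have hYi : IsIrreducible Y := hY.prop.1
  have hYc : IsClosed Y := hY.prop.2.1
  have hPY : P ∈ Y := hfY hPZ
  have hne : Y ≠ {P} := by
    intro heq
    apply hZne
    refine Set.Subset.antisymm (heq ▸ hfY) ?_
    simpa using hPZ
  have h1 : 1 ≤ dimT Y := one_le_dimT hYi hYc hPY hne
  refine hmax.2 Y ⟨coset 1 Λ, Module.finrank ℤ Λ, torsion_of_lattice Λ,
    coset_ne_univ Λ (by omega), hY, ?_⟩ hPY ?_
  · rw [hdim]
    have h2 : (2 : WithBot ℕ∞) ≤ ((Module.finrank ℤ Λ : ℕ) : WithBot ℕ∞) := by exact_mod_cast hr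
    calc (2 : WithBot ℕ∞) < 1 + 2 := by decide
      _ ≤ dimT Y + ((Module.finrank ℤ Λ : ℕ) : WithBot ℕ∞) := add_le_add h1 h2
  · rw [dimT_singleton]
    exact lt_of_lt_of_le (by decide) h1

/-- a maximal point has three independent relations -/
theorem max_rank {V : Set (Tor N)} (hdim : dimT V = 2) {P : Tor N} (hmax : IsMaxPoint V P) :
    P ∈ V ∧ 3 ≤ Module.finrank ℤ (rel P) := by
  obtain ⟨⟨B, c, hB, hBne, hcomp, hd⟩, hmx⟩ := hmax
  have hPVB : P ∈ V ∩ B := hcomp.prop.2.2 rfl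
  rw [hdim, dimT_singleton, zero_add] at hd
  have hc : 3 ≤ c := by
    have : (2 : ℕ) < c := by exact_mod_cast hd
    omega
  exact ⟨hPVB.1, hc.trans (rel_rank hB hPVB.2)⟩

/-- a set is irreducible if the polynomials vanishing on it are the kernel of a homomorphism to a
domain -/
theorem irr_of_hom {V : Set (Tor N)} (hne : V.Nonempty) {E : Type} [CommRing E] [IsDomain E]
    (θ : MvPolynomial (Fin N) Om →+* E) (h : ∀ f, f ∈ vI V ↔ θ f = 0) : IsIrreducible V := by
  refine ⟨hne, ?_⟩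
  rw [isPreirreducible_iff_isClosed_union_isClosed]
  intro A B hA hB hAB
  by_contra hcon
  push Not at hcon
  obtain ⟨k1, k2⟩ := hcon
  obtain ⟨f, hf, hf'⟩ := exists_sep hA k1
  obtain ⟨g, hg, hg'⟩ := exists_sep hB k2
  have h1 : f * g ∈ vI V := by
    intro q hq
    rw [map_mul]
    rcases hAB hq with h2 | h2
    · rw [hf q h2, zero_mul]
    · rw [hg q h2, mul_zero]
  rw [h, map_mul, mul_eq_zero, ← h, ← h] at h1
  rcases h1 with h1 | h1
  · exact hf' h1
  · exact hg' h1

theorem dim_of_hom {V : Set (Tor N)} (hV : IsIrreducible V) {E : Type} [Field E] [Algebra Om E]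
    (θ : MvPolynomial (Fin N) Om →ₐ[Om] E) (h : ∀ f, f ∈ vI V ↔ θ f = 0)
    (htr : Algebra.trdeg Om E ≤ 2) : dimT V ≤ 2 := by
  refine (dimT_le _).trans ?_
  have := vI_prime hV
  refine Anom.ringKrullDim_le_of_trdeg (k := Om) (Ideal.Quotient.liftₐ (vI V) θ
    (fun f hf => (h f).mp hf)) ?_ 2 (by exact_mod_cast htr)
  rw [injective_iff_map_eq_zero]
  intro a ha
  obtain ⟨f, rfl⟩ := Ideal.Quotient.mk_surjective a
  rw [Ideal.Quotient.eq_zero_iff_mem, h]
  exact ha

end

variable {ν : ℕ}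

/-- the polynomial in all variables -/
noncomputable def up (f : PN ν Om) : MvPolynomial (Fin (ν + 2)) Om :=
  MvPolynomial.rename (fun l : Fin ν => l.succ.succ) f

theorem eval_up (q : Tor (ν + 2)) (f : PN ν Om) :
    MvPolynomial.eval q.co (up f) = MvPolynomial.eval (tt q) f := by
  unfold up
  rw [MvPolynomial.eval_rename]
  rfl

/-- the Nullstellensatz in the form used here -/
theorem exists_pt {I : Ideal (PN ν Om)} (hI : I.IsPrime) {f : PN ν Om} (hf : f ∉ I) :
    ∃ t : Fin ν → Om, (∀ g ∈ I, MvPolynomial.eval t g = 0) ∧ MvPolynomial.eval t f ≠ 0 := by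
  by_contra hcon
  push Not at hcon
  apply hf
  rw [← MvPolynomial.IsPrime.vanishingIdeal_zeroLocus (K := Om) I, MvPolynomial.mem_vanishingIdeal_iff]
  intro t ht
  rw [MvPolynomial.mem_zeroLocus_iff] at ht
  simpa using hcon t (fun g hg => by simpa using ht g hg)

/-- the product of the coordinates -/
noncomputable def pX (ν : ℕ) : PN ν Om := ∏ l, MvPolynomial.X l

theorem pX_notMem {I : Ideal (PN ν Om)} (h : IsCurve I) : pX ν ∉ I := by
  have hp := h.prime
  unfold pX
  rw [Ideal.IsPrime.prod_mem_iff]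
  rintro ⟨l, -, hl⟩
  exact h.coord l hl

theorem eval_pX {t : Fin ν → Om} (h : MvPolynomial.eval t (pX ν) ≠ 0) : ∀ l, t l ≠ 0 := by
  intro l h0
  apply h
  unfold pX
  rw [map_prod]
  exact Finset.prod_eq_zero (Finset.mem_univ l) (by rw [MvPolynomial.eval_X, h0])

/-- the two orders of the first two coordinates -/
def Ord (i j : Fin (ν + 2)) : Prop := (i = 0 ∧ j = 1) ∨ (i = 1 ∧ j = 0)

theorem ord01 : Ord (0 : Fin (ν + 2)) 1 := Or.inl ⟨rfl, rfl⟩

theorem ord10 : Ord (1 : Fin (ν + 2)) 0 := Or.inr ⟨rfl, rfl⟩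

theorem one_ne : ¬ (1 : Fin (ν + 2)) = 0 := by
  intro h
  have := congrArg Fin.val h
  simp at this

theorem mk_tor (i j : Fin (ν + 2)) (hij : Ord i j) (x z : Om) (hx : x ≠ 0) (hz : z ≠ 0)
    (t : Fin ν → Om) (ht : ∀ l, t l ≠ 0) :
    ∃ q : Tor (ν + 2), q.co i = x ∧ q.co j = z ∧ tt q = t := by
  rcases hij with ⟨rfl, rfl⟩ | ⟨rfl, rfl⟩
  · exact ⟨(show Tor (ν + 2) from jn (Units.mk0 x hx) (Units.mk0 z hz)
      (fun l => Units.mk0 (t l) (ht l))), rfl, rfl, rfl⟩
  · exact ⟨(show Tor (ν + 2) from jn (Units.mk0 z hz) (Units.mk0 x hx)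
      (fun l => Units.mk0 (t l) (ht l))), rfl, rfl, rfl⟩

/-- the hypotheses on the surface -/
structure Hyp (I : Ideal (PN ν Om)) (u v w : PN ν Om) : Prop where
  curve : IsCurve I
  hu : u ∉ I
  hv : v ∉ I
  cop : ∀ q : Tor (ν + 2), (∀ f ∈ I, MvPolynomial.eval (tt q) f = 0) →
    MvPolynomial.eval (tt q) u = 0 → MvPolynomial.eval (tt q) v = 0 →
    MvPolynomial.eval (tt q) w = 0 → False

/-- transcendence degree of the coordinate ring -/
theorem trdeg_quot {I : Ideal (PN ν Om)} (h : IsCurve I) : Algebra.trdeg Om (PN ν Om ⧸ I) ≤ 1 := by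
  refine ciSup_le' fun s => ?_
  have hs := s.2
  rw [Cardinal.le_one_iff_subsingleton]
  constructor
  intro a b
  by_contra hab
  obtain ⟨f, hf⟩ := Ideal.Quotient.mk_surjective a.1
  obtain ⟨g, hg⟩ := Ideal.Quotient.mk_surjective b.1
  obtain ⟨R, hR, hR'⟩ := h.dep f g
  have hinj : Function.Injective ![a, b] := by
    intro i j hij
    fin_cases i <;> fin_cases j <;> simp_all
  have h2 : AlgebraicIndependent Om (fun i : Fin 2 => ((![a, b] i : s.1) : PN ν Om ⧸ I)) :=
    hs.comp ![a, b] hinj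
  apply hR
  apply h2
  rw [map_zero]
  have h3 : (fun i : Fin 2 => ((![a, b] i : s.1) : PN ν Om ⧸ I)) =
      fun i => Ideal.Quotient.mkₐ Om I (![f, g] i) := by
    funext i
    fin_cases i
    · exact hf.symm
    · exact hg.symm
  rw [h3, ← MvPolynomial.comp_aeval_apply]
  exact Ideal.Quotient.eq_zero_iff_mem.mpr hR'

/-- no coordinate is constant on the curve -/
theorem coord_not_const {I : Ideal (PN ν Om)} (h : IsCurve I) (l : Fin ν) (c : Om) :
    MvPolynomial.X l - MvPolynomial.C c ∉ I := by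
  classical
  have hm : (Pi.single l 1 : Fin ν → ℤ) ≠ 0 := by
    intro h0
    have := congrFun h0 l
    simp at this
  have h1 := h.indep (Pi.single l 1) hm (Polynomial.X - Polynomial.C c) (Polynomial.X_sub_C_ne_zero c)
  rw [Polynomial.natDegree_X_sub_C, Finset.sum_range_succ, Finset.sum_range_one] at h1
  have h2 : mp Om (Pi.single l 1) = MvPolynomial.X l := by
    unfold mp
    rw [Finset.prod_eq_single l]
    · simp
    · intro j _ hj
      simp [hj]
    · intro h0
      exact absurd (Finset.mem_univ l) h0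
  have h3 : mp Om (-(Pi.single l 1 : Fin ν → ℤ)) = 1 := by
    unfold mp
    refine Finset.prod_eq_one fun j _ => ?_
    rw [Pi.neg_apply, Pi.single_apply]
    split_ifs <;> simp
  rw [h2, h3] at h1
  intro h4
  apply h1
  convert h4 using 1
  simp [Polynomial.coeff_X]
  ring

/-- agreement of monomials on the fibre -/
theorem chr_fib {q P : Tor (ν + 2)} (hq : tt q = tt P) (m : Fin (ν + 2) → ℤ)
    (hP : P.chr m = 1) (h01 : q.co 0 ^ m 0 * q.co 1 ^ m 1 = P.co 0 ^ m 0 * P.co 1 ^ m 1) :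
    q.chr m = 1 := by
  have h2 : ∀ l : Fin ν, q.co l.succ.succ = P.co l.succ.succ := fun l => congrFun hq l
  apply Units.ext
  rw [chr_split, h01]
  simp only [h2]
  rw [← chr_split, hP]

end Pool.Agent.Work.MP_7da6af_nt.Cn
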