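import Pool.Agent.Work.MP_7da6af_nt.Cn.Main

/-! # Trinomial fibres -/

set_option autoImplicit false

namespace Pool.Agent.Work.MP_7da6af_nt.Cn

open NumberField Polynomial

theorem hh_zpow {K : Type} [Field K] [NumberField K] {x : K} (hx : x ≠ 0) (n : ℤ) :
    hh (x ^ n) = |(n : ℝ)| * hh x := by
  rw [hh_eq hx, hh_eq (zpow_ne_zero n hx), Height.logHeight₁_zpow, Nat.cast_natAbs]
  push_cast
  rfl

theorem mon_mul {n : ℕ} {K : Type} [Field K] {t : Fin n → K} (ht : ∀ l, t l ≠ 0) (m m' : Fin n → ℤ) :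
    mon t (m + m') = mon t m * mon t m' := by
  unfold mon
  rw [← Finset.prod_mul_distrib]
  exact Finset.prod_congr rfl fun j _ => zpow_add₀ (ht j) _ _

theorem mon_zpow {n : ℕ} {K : Type} [Field K] (t : Fin n → K) (m : Fin n → ℤ) (e : ℤ) :
    mon t (e • m) = mon t m ^ e := by
  unfold mon
  rw [← Finset.prod_zpow]
  refine Finset.prod_congr rfl fun j _ => ?_
  rw [← zpow_mul, Pi.smul_apply, smul_eq_mul, mul_comm]

theorem hh_mon2 {K : Type} [Field K] [NumberField K] {x z : K} (hx : x ≠ 0) (hz : z ≠ 0)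
    (a b : ℤ) {C : ℝ} (h1 : hh x ≤ C * dg K) (h2 : hh z ≤ C * dg K) :
    hh (x ^ a * z ^ b) ≤ (|(a : ℝ)| + |(b : ℝ)|) * C * dg K := by
  have h3 := hh_mul_le (zpow_ne_zero a hx) (zpow_ne_zero b hz)
  rw [hh_zpow hx, hh_zpow hz] at h3
  have h4 := mul_le_mul_of_nonneg_left h1 (abs_nonneg (a : ℝ))
  have h5 := mul_le_mul_of_nonneg_left h2 (abs_nonneg (b : ℝ))
  nlinarith

variable {n : ℕ} [NeZero n] {k : Type} [Field k] [NumberField k]

/-- The final form for trinomial fibres `u(t) x ^ a z ^ b + v(t) x ^ c z ^ d = w(t)`,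
`a d - b c ≠ 0`. -/
theorem final_tri (I : Ideal (PN n k)) (hI : Rels I) (u v w : PN n k) (a b c d : ℤ)
    (hdet : a * d - b * c ≠ 0) (hstar : ∀ σ : k →+* ℂ, StarN I σ) : ∃ C : ℝ,
    ∀ (K : Type) [Field K] [NumberField K] (φ : k →+* K) (x z : K) (t : Fin n → K),
      x ≠ 0 → z ≠ 0 → On I φ t → e3 φ t u ≠ 0 → e3 φ t v ≠ 0 → e3 φ t w ≠ 0 →
      e3 φ t u * (x ^ a * z ^ b) + e3 φ t v * (x ^ c * z ^ d) = e3 φ t w →
      (∃ M : Fin 3 → Fin (n + 2) → ℤ, LinearIndependent ℤ M ∧ ∀ i, x ^ M i 0 * z ^ M i 1 *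
        ∏ j : Fin n, t j ^ M i j.succ.succ = 1) →
      (¬ ∃ N : Fin 2 → Fin n → ℤ, LinearIndependent ℤ N ∧ ∀ i, ∏ j, t j ^ N i j = 1) →
      hh x ≤ C * dg K ∧ hh z ≤ C * dg K ∧ ∀ l, hh (t l) ≤ C * dg K := by
  let D : Dat n k := ⟨I, u, v, w, c2_of_rels I hI, hstar, hI⟩
  obtain ⟨C, hC⟩ := main D
  refine ⟨(|(d : ℝ)| + |(-b : ℤ)| + |(-c : ℤ)| + |(a : ℝ)| + 1) * |C|,
    fun K _ _ φ x z t hx hz hon huy hvy hwy heq hM hN => ?_⟩
  obtain ⟨M, hM, hrel⟩ := hM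
  have ht0 : ∀ l, t l ≠ 0 := hon.1
  -- pass to units
  let X : Kˣ := Units.mk0 x hx
  let Z : Kˣ := Units.mk0 z hz
  let T : Fin n → Kˣ := fun j => Units.mk0 (t j) (ht0 j)
  have hrel' : ∀ i, X ^ M i 0 * Z ^ M i 1 * ∏ j : Fin n, T j ^ M i j.succ.succ = 1 := by
    intro i
    ext
    push_cast
    exact hrel i
  have hno' : ¬ ∃ N : Fin 2 → Fin n → ℤ, LinearIndependent ℤ N ∧ ∀ i, ∏ j, T j ^ N i j = 1 := by
    rintro ⟨N, hN1, hN2⟩
    refine hN ⟨N, hN1, fun i => ?_⟩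
    have := congrArg Units.val (hN2 i)
    push_cast at this
    exact this
  obtain ⟨⟨κ, hκ, hκ1⟩, m, hm, ⟨c', hc⟩, ⟨d', hd⟩⟩ := linalg X Z T M hM hrel' hno'
  have hκ2 : mon t κ = 1 := by
    have := congrArg Units.val hκ1
    push_cast at this
    exact this
  have hc2 : x ^ m = mon t c' := by
    have := congrArg Units.val hc
    push_cast at this
    exact this
  have hd2 : z ^ m = mon t d' := by
    have := congrArg Units.val hd
    push_cast at this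
    exact this
  have hpow : ∀ p q : ℤ, (x ^ p * z ^ q) ^ m = mon t (p • c' + q • d') := by
    intro p q
    rw [mon_mul ht0, mon_zpow, mon_zpow, ← hc2, ← hd2, mul_pow]
    congr 1
    · rw [← zpow_natCast, ← zpow_natCast, ← zpow_mul, ← zpow_mul, mul_comm]
    · rw [← zpow_natCast, ← zpow_natCast, ← zpow_mul, ← zpow_mul, mul_comm]
  have hx1 : x ^ a * z ^ b ≠ 0 := mul_ne_zero (zpow_ne_zero _ hx) (zpow_ne_zero _ hz)
  have hz1 : x ^ c * z ^ d ≠ 0 := mul_ne_zero (zpow_ne_zero _ hx) (zpow_ne_zero _ hz)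
  obtain ⟨h1, h2, h3⟩ := hC K φ (x ^ a * z ^ b) (x ^ c * z ^ d) t
    ⟨hx1, hz1, hon, huy, hvy, hwy, heq, ⟨κ, hκ, hκ2⟩, m, hm, ⟨_, hpow a b⟩, ⟨_, hpow c d⟩⟩
  have hdg : 0 < dg K := dg_pos
  have habs : C * dg K ≤ |C| * dg K := mul_le_mul_of_nonneg_right (le_abs_self C) hdg.le
  have h1' := h1.trans habs
  have h2' := h2.trans habs
  have hδ : (1 : ℝ) ≤ |((a * d - b * c : ℤ) : ℝ)| := by
    rw [← Int.cast_abs]
    exact_mod_cast Int.one_le_abs hdet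
  have hxδ : x ^ (a * d - b * c) = (x ^ a * z ^ b) ^ d * (x ^ c * z ^ d) ^ (-b) := by
    rw [mul_zpow, mul_zpow, ← zpow_mul, ← zpow_mul, ← zpow_mul, ← zpow_mul,
      mul_mul_mul_comm, ← zpow_add₀ hx, ← zpow_add₀ hz]
    have e1 : a * d + c * -b = a * d - b * c := by ring
    have e2 : b * d + d * -b = 0 := by ring
    rw [e1, e2, zpow_zero, mul_one]
  have hzδ : z ^ (a * d - b * c) = (x ^ a * z ^ b) ^ (-c) * (x ^ c * z ^ d) ^ a := by
    rw [mul_zpow, mul_zpow, ← zpow_mul, ← zpow_mul, ← zpow_mul, ← zpow_mul,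
      mul_mul_mul_comm, ← zpow_add₀ hx, ← zpow_add₀ hz]
    have e1 : a * -c + c * a = 0 := by ring
    have e2 : b * -c + d * a = a * d - b * c := by ring
    rw [e1, e2, zpow_zero, one_mul]
  have h4 := hh_mon2 hx1 hz1 d (-b) h1' h2'
  have h5 := hh_mon2 hx1 hz1 (-c) a h1' h2'
  rw [← hxδ, hh_zpow hx] at h4
  rw [← hzδ, hh_zpow hz] at h5
  have h6 : hh x ≤ |((a * d - b * c : ℤ) : ℝ)| * hh x := by
    nlinarith [hh_nonneg x]
  have h7 : hh z ≤ |((a * d - b * c : ℤ) : ℝ)| * hh z := by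
    nlinarith [hh_nonneg z]
  have hC0 : 0 ≤ |C| * dg K := by positivity
  have ha := abs_nonneg (a : ℝ)
  have hd0 := abs_nonneg (d : ℝ)
  have hb := abs_nonneg ((-b : ℤ) : ℝ)
  have hc0 := abs_nonneg ((-c : ℤ) : ℝ)
  have e3 : (|((-b : ℤ))| : ℤ) = |((-b : ℤ) : ℝ)| := by rw [Int.cast_abs]
  have e4 : (|((-c : ℤ))| : ℤ) = |((-c : ℤ) : ℝ)| := by rw [Int.cast_abs]
  rw [e3, e4]
  refine ⟨?_, ?_, fun l => ?_⟩
  · nlinarith [mul_nonneg ha hC0, mul_nonneg hd0 hC0, mul_nonneg hb hC0, mul_nonneg hc0 hC0]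
  · nlinarith [mul_nonneg ha hC0, mul_nonneg hd0 hC0, mul_nonneg hb hC0, mul_nonneg hc0 hC0]
  · have h8 := (h3 l).trans habs
    nlinarith [mul_nonneg ha hC0, mul_nonneg hd0 hC0, mul_nonneg hb hC0, mul_nonneg hc0 hC0]

end Pool.Agent.Work.MP_7da6af_nt.Cn
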