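import Pool.Agent.Work.MP_7da6af_nt.Cn.TSurf
import Pool.Agent.Work.MP_7da6af_nt.Cn.Descent
import Pool.Agent.Work.MP_7da6af_nt.Cn.Tri

/-! # Surfaces with trinomial fibres: closedness and the conditions at a maximal point -/

set_option autoImplicit false

namespace Pool.Agent.Work.MP_7da6af_nt.Cn

open Pool.Agent.Work.MP_7da6af_nt
open TopologicalSpace NumberField IntermediateField
open Pool.Agent.Work.MP_7da6af_nt.Anom (absLogHeight_map)

variable {ν : ℕ}

/-- finitely many algebraic numbers lie in an extension of a given number field -/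
theorem exists_field' {k : Type} [Field k] [NumberField k] (ι : k →+* Om) {n : ℕ} (x : Fin n → Om) :
    ∃ (K : Type) (_ : Field K) (_ : NumberField K) (φ : k →+* K) (j : K →+* Om) (x' : Fin n → K),
      j.comp φ = ι ∧ ∀ i, j (x' i) = x i := by
  let f : k →ₐ[ℚ] Om := ι.toRatAlgHom
  have h0 : FiniteDimensional ℚ f.fieldRange := by
    let g : k →ₗ[ℚ] f.fieldRange :=
      { toFun := fun a => ⟨f a, a, rfl⟩
        map_add' := fun a b => Subtype.ext (map_add f a b)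
        map_smul' := fun c a => Subtype.ext (f.toLinearMap.map_smul c a) }
    refine Module.Finite.of_surjective g ?_
    rintro ⟨_, a, rfl⟩
    exact ⟨a, rfl⟩
  have h1 : FiniteDimensional ℚ (adjoin ℚ (Set.range x)) :=
    finiteDimensional_adjoin fun y _ => Anom.isInt y
  let S : IntermediateField ℚ Om := f.fieldRange ⊔ adjoin ℚ (Set.range x)
  have hS : FiniteDimensional ℚ S := inferInstance
  have hN : NumberField S := {}
  have hι : ∀ a, ι a ∈ S := fun a => (le_sup_left : f.fieldRange ≤ S) ⟨a, rfl⟩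
  have hx : ∀ i, x i ∈ S := fun i =>
    (le_sup_right : adjoin ℚ (Set.range x) ≤ S) (subset_adjoin ℚ _ ⟨i, rfl⟩)
  exact ⟨S, inferInstance, hN, ι.codRestrict S hι, algebraMap S Om, fun i => ⟨x i, hx i⟩,
    RingHom.ext fun a => rfl, fun i => rfl⟩

/-- embeddings of a number field extend -/
theorem exists_ext {k : Type} [Field k] [NumberField k] (ι : k →+* Om) (σ₀ : k →+* ℂ) :
    ∃ σ : Om →+* ℂ, σ.comp ι = σ₀ := by
  let : Algebra k Om := ι.toAlgebra
  let : Algebra k ℂ := σ₀.toAlgebra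
  have : IsScalarTower ℚ k Om := IsScalarTower.of_algebraMap_eq' (RingHom.ext_rat _ _)
  have : Algebra.IsAlgebraic ℚ Om := AlgebraicClosure.isAlgebraic ℚ
  have : Algebra.IsAlgebraic k Om := Algebra.IsAlgebraic.tower_top (K := ℚ) k
  let g : Om →ₐ[k] ℂ := IsAlgClosed.lift
  exact ⟨g.toRingHom, RingHom.ext fun a => g.commutes a⟩

theorem e3_map' {k : Type} [Field k] {K L : Type} [Field K] [Field L] (ι : k →+* K)
    (σ : K →+* L) (t : Fin ν → L) (f : PN ν k) :
    e3 σ t (MvPolynomial.map ι f) = e3 (σ.comp ι) t f := MvPolynomial.eval₂_map _ _ _ _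

theorem e3_comp' {k : Type} [Field k] {K L : Type} [Field K] [Field L] (φ : k →+* K)
    (j : K →+* L) (t : Fin ν → K) (f : PN ν k) :
    e3 (j.comp φ) (fun l => j (t l)) f = j (e3 φ t f) := by
  unfold e3
  rw [MvPolynomial.eval₂_comp_left]
  rfl

/-- zeros of the extended ideal -/
theorem zero_map {k : Type} [Field k] {K L : Type} [Field K] [Field L] (ι : k →+* K)
    (σ : K →+* L) (t : Fin ν → L) (I₀ : Ideal (PN ν k)) (h : ∀ f ∈ I₀, e3 (σ.comp ι) t f = 0)
    (f : PN ν K) (hf : f ∈ I₀.map (MvPolynomial.map ι)) : e3 σ t f = 0 := by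
  have h1 : I₀.map (MvPolynomial.map ι) ≤ RingHom.ker (MvPolynomial.eval₂Hom σ t) := by
    rw [Ideal.map_le_iff_le_comap]
    intro g hg
    rw [Ideal.mem_comap, RingHom.mem_ker]
    show e3 σ t (MvPolynomial.map ι g) = 0
    rw [e3_map']
    exact h g hg
  exact h1 hf

/-- the points `(x, z, t)` with `t` on the curve of `I` and
`u(t) x ^ a z ^ b + v(t) x ^ c z ^ d = w(t)` -/
def surfT (I : Ideal (PN ν Om)) (u v w : PN ν Om) (a b c d : ℤ) : Set (Tor (ν + 2)) :=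
  {q | (∀ f ∈ I, MvPolynomial.eval (tt q) f = 0) ∧
    MvPolynomial.eval (tt q) u * (q.co 0 ^ a * q.co 1 ^ b) +
      MvPolynomial.eval (tt q) v * (q.co 0 ^ c * q.co 1 ^ d) = MvPolynomial.eval (tt q) w}

/-- multiplication of a trinomial by a monomial -/
theorem clear_den (x z : Om) (hx : x ≠ 0) (hz : z ≠ 0) (U V W : Om) (a b c d : ℤ) :
    U * (x ^ (a + ((-a).toNat + (-c).toNat)).toNat * z ^ (b + ((-b).toNat + (-d).toNat)).toNat) +
      V * (x ^ (c + ((-a).toNat + (-c).toNat)).toNat *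
        z ^ (d + ((-b).toNat + (-d).toNat)).toNat) =
      W * (x ^ ((-a).toNat + (-c).toNat) * z ^ ((-b).toNat + (-d).toNat)) ↔
    U * (x ^ a * z ^ b) + V * (x ^ c * z ^ d) = W := by
  have h1 : ∀ (y : Om), y ≠ 0 → ∀ (e : ℤ) (n : ℕ), 0 ≤ e + n →
      y ^ (e + n).toNat = y ^ e * y ^ n := by
    intro y hy e n hn
    rw [← zpow_natCast, Int.toNat_of_nonneg hn, zpow_add₀ hy, zpow_natCast]
  rw [show (((-a).toNat : ℤ) + ((-c).toNat : ℤ)) = (((-a).toNat + (-c).toNat : ℕ) : ℤ) by push_cast; ring,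
    show (((-b).toNat : ℤ) + ((-d).toNat : ℤ)) = (((-b).toNat + (-d).toNat : ℕ) : ℤ) by push_cast; ring]
  rw [h1 x hx a _ (by push_cast; omega), h1 x hx c _ (by push_cast; omega),
    h1 z hz b _ (by push_cast; omega), h1 z hz d _ (by push_cast; omega)]
  have hm : x ^ ((-a).toNat + (-c).toNat) * z ^ ((-b).toNat + (-d).toNat) ≠ 0 :=
    mul_ne_zero (pow_ne_zero _ hx) (pow_ne_zero _ hz)
  constructor
  · intro h
    apply mul_right_cancel₀ hm
    rw [← h]
    ring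
  · intro h
    rw [← h]
    ring

theorem surfT_closed (I : Ideal (PN ν Om)) (u v w : PN ν Om) (a b c d : ℤ) :
    IsClosed (surfT I u v w a b c d) := by
  rw [isClosed_iff]
  refine ⟨(up '' I) ∪ {up u * (MvPolynomial.X 0 ^ (a + ((-a).toNat + (-c).toNat)).toNat *
      MvPolynomial.X 1 ^ (b + ((-b).toNat + (-d).toNat)).toNat) +
    up v * (MvPolynomial.X 0 ^ (c + ((-a).toNat + (-c).toNat)).toNat *
      MvPolynomial.X 1 ^ (d + ((-b).toNat + (-d).toNat)).toNat) -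
    up w * (MvPolynomial.X 0 ^ ((-a).toNat + (-c).toNat) *
      MvPolynomial.X 1 ^ ((-b).toNat + (-d).toNat))}, ?_⟩
  ext q
  simp only [zLoc, surfT, Set.mem_ofPred_eq, Set.mem_union, or_imp, forall_and,
    Set.forall_mem_image, Set.mem_singleton_iff, forall_eq, map_sub, map_add, map_mul, map_pow,
    MvPolynomial.eval_X, eval_up, sub_eq_zero, SetLike.mem_coe]
  rw [clear_den _ _ (co_ne q 0) (co_ne q 1)]

/-- a sublattice of the relations with proportional first two coordinates -/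
theorem sub_lattice (P : Tor (ν + 2)) (h : 3 ≤ Module.finrank ℤ (rel P)) (α β : ℤ)
    (hαβ : ¬ (α = 0 ∧ β = 0)) : ∃ Λ : Submodule ℤ (Fin (ν + 2) → ℤ), Λ ≤ rel P ∧
      2 ≤ Module.finrank ℤ Λ ∧ ∀ m ∈ Λ, ∃ j : ℤ, m 0 = j * α ∧ m 1 = j * β := by
  let e : (Fin (ν + 2) → ℤ) →ₗ[ℤ] ℤ := β • LinearMap.proj (R := ℤ) (φ := fun _ : Fin (ν + 2) => ℤ) 0 -
    α • LinearMap.proj (R := ℤ) (φ := fun _ : Fin (ν + 2) => ℤ) 1
  have he : ∀ m : Fin (ν + 2) → ℤ, e m = β * m 0 - α * m 1 := fun m => rfl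
  have h1 := rank_ker (rel P) e
  obtain ⟨N, hN, hN'⟩ : ∃ N : ℤ, N ≠ 0 ∧ ∀ m : Fin (ν + 2) → ℤ, e m = 0 →
      ∃ j : ℤ, N * m 0 = j * α ∧ N * m 1 = j * β := by
    by_cases hα : α = 0
    · have hβ : β ≠ 0 := fun hβ => hαβ ⟨hα, hβ⟩
      refine ⟨β, hβ, fun m hm => ⟨m 1, ?_, by ring⟩⟩
      rw [he, hα] at hm
      rw [hα]
      linarith
    · refine ⟨α, hα, fun m hm => ⟨m 0, by ring, ?_⟩⟩
      rw [he] at hm
      linarith
  refine ⟨(rel P ⊓ LinearMap.ker e).map (N • LinearMap.id), ?_, ?_, ?_⟩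
  · rintro _ ⟨m, ⟨hm, -⟩, rfl⟩
    exact (rel P).smul_mem N hm
  · have h2 : Function.Injective (N • (LinearMap.id : (Fin (ν + 2) → ℤ) →ₗ[ℤ] (Fin (ν + 2) → ℤ))) := by
      intro x y hxy
      have h3 : N • x = N • y := hxy
      funext i
      have h4 := congrFun h3 i
      simp only [Pi.smul_apply, smul_eq_mul] at h4
      exact mul_left_cancel₀ hN h4
    rw [← (Submodule.equivMapOfInjective _ h2 (rel P ⊓ LinearMap.ker e)).finrank_eq]
    omega
  · rintro _ ⟨m, ⟨-, hm⟩, rfl⟩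
    exact hN' m hm

/-- a positive dimensional irreducible closed part of the fibre through a point of the surface -/
theorem exists_fibT {I : Ideal (PN ν Om)} {u v w : PN ν Om} {a b c d : ℤ} {P : Tor (ν + 2)}
    (hP : P ∈ surfT I u v w a b c d) : ∃ Z : Set (Tor (ν + 2)), IsIrreducible Z ∧ IsClosed Z ∧ P ∈ Z ∧
      Z ≠ {P} ∧ Z ⊆ surfT I u v w a b c d ∧ ∀ q ∈ Z, tt q = tt P := by
  set U := MvPolynomial.eval (tt P) u with hU
  set V := MvPolynomial.eval (tt P) v with hV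
  set W := MvPolynomial.eval (tt P) w with hW
  let f : MvPolynomial (Fin 2) Om :=
    MvPolynomial.C U * (MvPolynomial.X 0 ^ (a + ((-a).toNat + (-c).toNat)).toNat *
      MvPolynomial.X 1 ^ (b + ((-b).toNat + (-d).toNat)).toNat) +
    MvPolynomial.C V * (MvPolynomial.X 0 ^ (c + ((-a).toNat + (-c).toNat)).toNat *
      MvPolynomial.X 1 ^ (d + ((-b).toNat + (-d).toNat)).toNat) -
    MvPolynomial.C W * (MvPolynomial.X 0 ^ ((-a).toNat + (-c).toNat) *
      MvPolynomial.X 1 ^ ((-b).toNat + (-d).toNat))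
  have hf : ∀ q : Tor (ν + 2), MvPolynomial.eval ![q.co 0, q.co 1] f = 0 ↔
      U * (q.co 0 ^ a * q.co 1 ^ b) + V * (q.co 0 ^ c * q.co 1 ^ d) = W := by
    intro q
    rw [← clear_den _ _ (co_ne q 0) (co_ne q 1)]
    simp only [f, map_sub, map_add, map_mul, map_pow, MvPolynomial.eval_X, MvPolynomial.eval_C]
    rw [sub_eq_zero]
    rfl
  obtain ⟨Z, h1, h2, h3, h4, h5⟩ := plane_comp P f ((hf P).mpr hP.2)
  refine ⟨Z, h1, h2, h3, h4, fun q hq => ?_, fun q hq => (h5 q hq).1⟩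
  have h6 : tt q = tt P := (h5 q hq).1
  refine ⟨?_, ?_⟩
  · rw [h6]
    exact hP.1
  · rw [h6]
    exact (hf q).mp (h5 q hq).2

/-- the conditions of the main theorem hold at a maximal point -/
theorem conditionsT {I : Ideal (PN ν Om)} {u v w : PN ν Om} {a b c d : ℤ} (hdet : a * d - b * c ≠ 0)
    (hcop : ∀ t : Fin ν → Om, (∀ l, t l ≠ 0) → (∀ f ∈ I, MvPolynomial.eval t f = 0) →
      MvPolynomial.eval t u = 0 → MvPolynomial.eval t v = 0 → MvPolynomial.eval t w ≠ 0)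
    (hdim : dimT (surfT I u v w a b c d) = 2) {P : Tor (ν + 2)}
    (hmax : IsMaxPoint (surfT I u v w a b c d) P) :
    MvPolynomial.eval (tt P) u ≠ 0 ∧ MvPolynomial.eval (tt P) v ≠ 0 ∧
      MvPolynomial.eval (tt P) w ≠ 0 ∧
      (∃ M : Fin 3 → Fin (ν + 2) → ℤ, LinearIndependent ℤ M ∧ ∀ i, P.chr (M i) = 1) ∧
      ¬ ∃ N : Fin 2 → Fin ν → ℤ, LinearIndependent ℤ N ∧
        ∀ i, ∏ j : Fin ν, P.co j.succ.succ ^ N i j = 1 := by
  obtain ⟨hPV, hrk⟩ := max_rank hdim hmax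
  obtain ⟨Z, hZi, hZc, hPZ, hZne, hZV, hZt⟩ := exists_fibT hPV
  have hno : ∀ Λ : Submodule ℤ (Fin (ν + 2) → ℤ), 2 ≤ Module.finrank ℤ Λ →
      ¬ ∀ q ∈ Z, ∀ m ∈ Λ, q.chr m = 1 := fun Λ hr hsub =>
    no_lattice (surfT_closed I u v w a b c d) hdim hmax hZi hZc hPZ hZne hZV Λ hr hsub
  -- no monomial is constant on the fibre
  have hconst : ∀ α β : ℤ, ¬ (α = 0 ∧ β = 0) →
      ¬ ∀ q ∈ Z, q.co 0 ^ α * q.co 1 ^ β = P.co 0 ^ α * P.co 1 ^ β := by
    intro α β hαβ hq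
    obtain ⟨Λ, hΛ1, hΛ2, hΛ3⟩ := sub_lattice P hrk α β hαβ
    refine hno Λ hΛ2 fun q hqZ m hm => ?_
    refine chr_fib (hZt q hqZ) m (hΛ1 hm) ?_
    obtain ⟨j, hj0, hj1⟩ := hΛ3 m hm
    rw [hj0, hj1, mul_comm j α, mul_comm j β, zpow_mul, zpow_mul, zpow_mul, zpow_mul, ← mul_zpow,
      ← mul_zpow, hq q hqZ]
  have heq : ∀ q ∈ Z, MvPolynomial.eval (tt P) u * (q.co 0 ^ a * q.co 1 ^ b) +
      MvPolynomial.eval (tt P) v * (q.co 0 ^ c * q.co 1 ^ d) = MvPolynomial.eval (tt P) w := by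
    intro q hq
    rw [← hZt q hq]
    exact (hZV hq).2
  have hco : ∀ (q : Tor (ν + 2)) (i : Fin (ν + 2)) (e : ℤ), q.co i ^ e ≠ 0 := fun q i e =>
    zpow_ne_zero e (co_ne q i)
  have hcp := hcop (tt P) (fun l => co_ne P _) hPV.1
  have hu : MvPolynomial.eval (tt P) u ≠ 0 := by
    intro hu0
    have hv0 : MvPolynomial.eval (tt P) v ≠ 0 := by
      intro hv0
      have h1 := heq P hPZ
      rw [hu0, hv0, zero_mul, zero_mul, add_zero] at h1
      exact hcp hu0 hv0 h1.symm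
    refine hconst c d (fun h => hdet (by rw [h.1, h.2]; ring)) fun q hq => ?_
    have h1 := heq P hPZ
    have h2 := heq q hq
    rw [hu0, zero_mul, zero_add] at h1 h2
    exact mul_left_cancel₀ hv0 (h2.trans h1.symm)
  have hv : MvPolynomial.eval (tt P) v ≠ 0 := by
    intro hv0
    refine hconst a b (fun h => hdet (by rw [h.1, h.2]; ring)) fun q hq => ?_
    have h1 := heq P hPZ
    have h2 := heq q hq
    rw [hv0, zero_mul, add_zero] at h1 h2
    exact mul_left_cancel₀ hu (h2.trans h1.symm)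
  refine ⟨hu, hv, ?_, ?_, ?_⟩
  · intro hw0
    refine hconst (a - c) (b - d) ?_ fun q hq => ?_
    · rintro ⟨h1, h2⟩
      apply hdet
      have h3 : a = c := by omega
      have h4 : b = d := by omega
      rw [h3, h4]
      ring
    · have h1 := heq P hPZ
      have h2 := heq q hq
      rw [hw0] at h1 h2
      have key : ∀ p : Tor (ν + 2), MvPolynomial.eval (tt P) u * (p.co 0 ^ a * p.co 1 ^ b) +
          MvPolynomial.eval (tt P) v * (p.co 0 ^ c * p.co 1 ^ d) = 0 →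
          p.co 0 ^ (a - c) * p.co 1 ^ (b - d) =
            - MvPolynomial.eval (tt P) v / MvPolynomial.eval (tt P) u := by
        intro p hp
        rw [zpow_sub₀ (co_ne p 0), zpow_sub₀ (co_ne p 1), div_mul_div_comm,
          div_eq_div_iff (mul_ne_zero (hco p 0 c) (hco p 1 d)) hu]
        linear_combination hp
      rw [key q h2, key P h1]
  · obtain ⟨M, hM1, hM2⟩ := exists_indep (rel P) 3 hrk
    exact ⟨M, hM1, hM2⟩
  · rintro ⟨N, hN1, hN2⟩
    obtain ⟨Λ, hΛ1, hΛ2, hΛ3⟩ := rank_of_two P N hN1 hN2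
    refine hno Λ hΛ3 ?_
    intro q hq m hm
    refine chr_fib (hZt q hq) m (hΛ1 hm) ?_
    rw [(hΛ2 m hm).1, (hΛ2 m hm).2, zpow_zero, zpow_zero, zpow_zero, zpow_zero]

/-- bounded height of the maximal points, for surfaces with trinomial fibres of dimension two -/
theorem heightT [NeZero ν] (I : Ideal (PN ν Om)) (hI : IsCurve I) (u v w : PN ν Om) (a b c d : ℤ)
    (hdet : a * d - b * c ≠ 0)
    (hcop : ∀ t : Fin ν → Om, (∀ l, t l ≠ 0) → (∀ f ∈ I, MvPolynomial.eval t f = 0) →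
      MvPolynomial.eval t u = 0 → MvPolynomial.eval t v = 0 → MvPolynomial.eval t w ≠ 0)
    (hstar : ∀ σ : Om →+* ℂ, StarN I σ) (hdim : dimT (surfT I u v w a b c d) = 2) :
    ∃ C : ℝ, ∀ P : Tor (ν + 2), IsMaxPoint (surfT I u v w a b c d) P → hgt P ≤ C := by
  classical
  obtain ⟨k, _, _, ι, I₀, hI₀, hII, hU⟩ := descent I hI {u, v, w}
  obtain ⟨u₀, hu₀⟩ := hU u (by simp)
  obtain ⟨v₀, hv₀⟩ := hU v (by simp)
  obtain ⟨w₀, hw₀⟩ := hU w (by simp)
  have hstar₀ : ∀ σ : k →+* ℂ, StarN I₀ σ := by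
    intro σ₀ p q hpq S
    obtain ⟨σ, hσ⟩ := exists_ext ι σ₀
    refine (hstar σ p q hpq S).subset ?_
    rintro t ⟨⟨h1, h2⟩, h3⟩
    refine ⟨⟨h1, ?_⟩, h3⟩
    rw [hII]
    intro f hf
    exact zero_map ι σ t I₀ (fun g hg => by rw [hσ]; exact h2 g hg) f hf
  obtain ⟨C, hC⟩ := final_tri I₀ (rels_of_curve I₀ hI₀) u₀ v₀ w₀ a b c d hdet hstar₀
  refine ⟨((ν : ℝ) + 2) * C, fun P hP => ?_⟩
  have hPV := (max_rank hdim hP).1
  obtain ⟨hu1, hv1, hw1, ⟨M, hM1, hM2⟩, hN⟩ := conditionsT hdet hcop hdim hP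
  obtain ⟨K, _, _, φ, j, x', hφ, hx'⟩ := exists_field' ι P.co
  have hj : Function.Injective j := j.injective
  have hx0 : ∀ i, x' i ≠ 0 := fun i h0 => co_ne P i (by rw [← hx', h0, map_zero])
  set t : Fin ν → K := fun l => x' l.succ.succ with ht
  have htj : ∀ l, j (t l) = P.co l.succ.succ := fun l => hx' _
  have hev : ∀ f : PN ν k, j (e3 φ t f) = MvPolynomial.eval (tt P) (MvPolynomial.map ι f) := by
    intro f
    rw [← e3_comp', hφ]
    have : (fun l => j (t l)) = tt P := funext htj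
    rw [this, MvPolynomial.eval_map]
    rfl
  have hne : ∀ f : PN ν k, MvPolynomial.eval (tt P) (MvPolynomial.map ι f) ≠ 0 → e3 φ t f ≠ 0 := by
    intro f hf h0
    apply hf
    rw [← hev, h0, map_zero]
  obtain ⟨b1, b2, b3⟩ := hC K φ (x' 0) (x' 1) t (hx0 0) (hx0 1)
    ⟨fun l => hx0 _, fun f hf => by
      apply hj
      rw [hev, map_zero]
      apply hPV.1
      rw [hII]
      exact Ideal.mem_map_of_mem _ hf⟩
    (hne u₀ (by rw [hu₀]; exact hu1)) (hne v₀ (by rw [hv₀]; exact hv1))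
    (hne w₀ (by rw [hw₀]; exact hw1))
    (by
      apply hj
      rw [map_add, map_mul, map_mul, map_mul, map_mul, map_zpow₀, map_zpow₀, map_zpow₀, map_zpow₀,
        hev, hev, hev, hu₀, hv₀, hw₀, hx', hx']
      exact hPV.2)
    ⟨M, hM1, fun l => by
      apply hj
      rw [map_one, map_mul, map_mul, map_zpow₀, map_zpow₀, map_prod, hx', hx']
      simp only [map_zpow₀, htj]
      rw [← chr_split, hM2 l]
      rfl⟩
    (by
      rintro ⟨N, hN1, hN2⟩
      refine hN ⟨N, hN1, fun l => ?_⟩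
      have := congrArg j (hN2 l)
      rw [map_prod, map_one] at this
      simp only [map_zpow₀, htj] at this
      exact this)
  have hd : 0 < dg K := dg_pos
  have hb : ∀ a : K, a ≠ 0 → hh a ≤ C * dg K → NumberField.absLogHeight₁ (j a) ≤ C := by
    intro a ha hab
    rw [absLogHeight_map j a ha, div_le_iff₀ hd]
    exact hab
  have h0 := hb _ (hx0 0) b1
  have h1 := hb _ (hx0 1) b2
  have h2 : ∀ l : Fin ν, NumberField.absLogHeight₁ (P.co l.succ.succ) ≤ C := by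
    intro l
    rw [← htj l]
    exact hb _ (hx0 _) (b3 l)
  rw [hx'] at h0 h1
  have hall : ∀ i, NumberField.absLogHeight₁ (P.co i) ≤ C := fin_ss h0 h1 h2
  unfold hgt
  calc ∑ i, NumberField.absLogHeight₁ (P.co i) ≤ ∑ _i : Fin (ν + 2), C :=
        Finset.sum_le_sum fun i _ => hall i
    _ = ((ν : ℝ) + 2) * C := by
        rw [Finset.sum_const, Finset.card_univ, Fintype.card_fin, nsmul_eq_mul]
        push_cast
        ring

end Pool.Agent.Work.MP_7da6af_nt.Cn
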